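import Pool.Agent.H500.ED.Rat

set_option autoImplicit false
set_option linter.unusedSectionVars false

/-!
# The existence theorem over `ℚ`: the main theorem
-/

namespace Pool.Agent.H500.ED

open NumberField IsDedekindDomain Filter Topology Polynomial
open Pool.Agent.W401.Cheb (GK IsFrob IsInert dens)
open Pool.Agent.H500.HC (InRay QBar ZBar jz natCast_mem_iff_dvd)
open Pool.Agent.H500.MW (PosUD Diag)
open Pool.Agent.H500.TH (SolRes)
open Pool.Agent.H500.ZO (PotHecke SemiS)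
open Pool.Agent.Y800 (GQ Unramified IsGeomFrob InInertia Corresponds IsSemisimple)
open Pool.Agent.H328.ZO.SYS (dual coe_dual charpoly_dual dual_inj semi_dual)

section

variable {E : Type} [Field E] [NumberField E]

/-- a residual representation with solvable image at `v`, with the polynomials `P p` for the primes `p`
outside `S`, geometric Frobenius elements -/
def SResS (S : Finset ℕ) (n : ℕ) (P : ℕ → (𝓞 E)[X]) (v : HeightOneSpectrum (𝓞 E)) : Prop :=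
  ∃ (k : Type) (_ : Field k) (φ : 𝓞 E →+* k) (ρ : GQ →* GL (Fin n) k),
    RingHom.ker φ = v.asIdeal ∧ IsOpen (ρ.ker : Set GQ) ∧ Group.IsSolvable ρ.range ∧
    ∀ p : ℕ, p.Prime → p ∉ S → (p : 𝓞 E) ∉ v.asIdeal → Unramified ρ p ∧
      ∀ Q : Ideal ZBar, Q.IsMaximal → (p : ZBar) ∈ Q → ∀ σ : GQ, IsGeomFrob p Q σ →
        (ρ σ : Matrix (Fin n) (Fin n) k).charpoly = (P p).map φ

theorem rat_core (hED : EDM) {n : ℕ} (j : E →+* QBar) (S : Finset ℕ) (P : ℕ → (𝓞 E)[X])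
    (hres : PosUD (SResS S n P)) : ∃ U : Subgroup (GK ℚ), U.Normal ∧ IsOpen (U : Set (GK ℚ)) ∧
      ∀ (ℓ : ℕ) [Fact ℓ.Prime] (κ : QBar →+* PadicAlgCl ℓ),
      ∃ R : GK ℚ →* GL (Fin n) (PadicAlgCl ℓ),
        Continuous (fun g => (R g : Matrix (Fin n) (Fin n) (PadicAlgCl ℓ))) ∧ SemiS R ∧
        (∀ u ∈ U, (R u : Matrix (Fin n) (Fin n) (PadicAlgCl ℓ)).IsDiag) ∧
        ∀ v : HeightOneSpectrum (𝓞 ℚ), Ideal.absNorm v.asIdeal ∉ S → Ideal.absNorm v.asIdeal ≠ ℓ →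
          (∀ τ, IsInert v τ → R τ = 1) ∧ ∀ σ, IsFrob v σ →
          (R σ : Matrix (Fin n) (Fin n) (PadicAlgCl ℓ)).charpoly =
            (P (Ideal.absNorm v.asIdeal)).map ((κ.comp j).comp (algebraMap (𝓞 E) E)) := by
  classical
  -- one modulus
  have key : ∀ N : ℕ, 2 ≤ N → (∀ p ∈ S, p.Prime → p ∣ N) →
      ∃ U : Subgroup (GK ℚ), U.Normal ∧ IsOpen (U : Set (GK ℚ)) ∧
      ∀ (ℓ : ℕ) [Fact ℓ.Prime] (κ : QBar →+* PadicAlgCl ℓ),
      ∃ R : GK ℚ →* GL (Fin n) (PadicAlgCl ℓ),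
        Continuous (fun g => (R g : Matrix (Fin n) (Fin n) (PadicAlgCl ℓ))) ∧ SemiS R ∧
        (∀ u ∈ U, (R u : Matrix (Fin n) (Fin n) (PadicAlgCl ℓ)).IsDiag) ∧
        ∀ v : HeightOneSpectrum (𝓞 ℚ), ¬ Ideal.absNorm v.asIdeal ∣ N →
          Ideal.absNorm v.asIdeal ≠ ℓ →
          (∀ τ, IsInert v τ → R τ = 1) ∧ ∀ σ, IsFrob v σ →
          (R σ : Matrix (Fin n) (Fin n) (PadicAlgCl ℓ)).charpoly =
            (P (Ideal.absNorm v.asIdeal)).map ((κ.comp j).comp (algebraMap (𝓞 E) E)) := by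
    intro N hN hSN
    have h1 : PosUD (SolRes (K := ℚ) N n (PQ P)) := by
      refine hres.mono fun lam hlam => SRes.solRes ?_
      obtain ⟨k, _, φ, ρ, h1, h2, h3, h4⟩ := hlam
      exact ⟨k, inferInstance, φ, ρ, h1, h2, h3, fun p hp hpN =>
        h4 p hp fun h => hpN (hSN p h hp)⟩
    obtain ⟨U, L, _, _, _, ι, e, t, ψ, H, hex⟩ := hED ℚ E j N n hN (PQ P) h1
    refine ⟨U, H.normal, H.isOpen, fun ℓ _ κ => ?_⟩
    obtain ⟨R, hR1, hR2, hR3, hR4⟩ := hex ℓ κ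
    refine ⟨R, hR1, hR2, ?_, fun v hv hℓ => hR4 v (fun h => hv ((mem_iff v N).1 h)) ?_⟩
    · intro u hu
      have h2 : u ∈ ι.range := by
        rw [H.fld.range]
        exact hu
      obtain ⟨s, rfl⟩ := h2
      exact hR3 s
    · intro h
      have h2 := (mem_iff v ℓ).1 h
      exact hℓ ((Nat.prime_dvd_prime_iff_eq (norm_spec v).1 (Fact.out : ℓ.Prime)).1 h2)
  by_cases hS : ∃ p ∈ S, p.Prime
  · obtain ⟨p0, hp0S, hp0⟩ := hS
    set N := ∏ p ∈ S.filter Nat.Prime, p with hN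
    have hdvd : ∀ p : ℕ, p.Prime → (p ∣ N ↔ p ∈ S) := by
      intro p hp
      constructor
      · intro h
        obtain ⟨q, hq, hpq⟩ := (Nat.Prime.prime hp).exists_mem_finset_dvd h
        rw [Finset.mem_filter] at hq
        rw [(Nat.prime_dvd_prime_iff_eq hp hq.2).1 hpq]
        exact hq.1
      · intro h
        exact Finset.dvd_prod_of_mem _ (Finset.mem_filter.2 ⟨h, hp⟩)
    have hNpos : 0 < N := Finset.prod_pos fun p hp => (Finset.mem_filter.1 hp).2.pos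
    have hN2 : 2 ≤ N := hp0.two_le.trans (Nat.le_of_dvd hNpos ((hdvd p0 hp0).2 hp0S))
    obtain ⟨U, h1, h2, h3⟩ := key N hN2 fun p hp hpp => (hdvd p hpp).2 hp
    refine ⟨U, h1, h2, fun ℓ _ κ => ?_⟩
    obtain ⟨R, hR1, hR2, hR3, hR4⟩ := h3 ℓ κ
    exact ⟨R, hR1, hR2, hR3, fun v hv hℓ =>
      hR4 v (fun h => hv ((hdvd _ (norm_spec v).1).1 h)) hℓ⟩
  · push Not at hS
    obtain ⟨U, h1, h2, h3⟩ := key 2 le_rfl fun p hp hpp => absurd hpp (hS p hp)
    obtain ⟨U', h1', h2', h3'⟩ := key 3 (by norm_num) fun p hp hpp => absurd hpp (hS p hp)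
    refine ⟨U, h1, h2, fun ℓ _ κ => ?_⟩
    obtain ⟨R, hR1, hR2, hR3, hR4⟩ := h3 ℓ κ
    obtain ⟨R', hR1', hR2', hR3', hR4'⟩ := h3' ℓ κ
    have htr : ∀ g, (R g : Matrix (Fin n) (Fin n) (PadicAlgCl ℓ)).trace =
        (R' g : Matrix (Fin n) (Fin n) (PadicAlgCl ℓ)).trace := by
      refine trace_eq R R' hR1 hR1' (M := 2 * 3 * ℓ)
        (Nat.mul_pos (by norm_num) (Fact.out : ℓ.Prime).pos) ?_
      intro v hv σ hσ
      have hv2 : ¬ Ideal.absNorm v.asIdeal ∣ 2 := fun h =>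
        hv ((mem_iff v _).2 ((h.mul_right 3).mul_right ℓ))
      have hv3 : ¬ Ideal.absNorm v.asIdeal ∣ 3 := fun h =>
        hv ((mem_iff v _).2 ((h.mul_left 2).mul_right ℓ))
      have hvℓ : Ideal.absNorm v.asIdeal ≠ ℓ := fun h =>
        hv ((mem_iff v _).2 (by rw [h]; exact Dvd.intro_left _ rfl))
      rw [Matrix.trace_eq_neg_charpoly_nextCoeff, Matrix.trace_eq_neg_charpoly_nextCoeff,
        (hR4 v hv2 hvℓ).2 σ hσ, (hR4' v hv3 hvℓ).2 σ hσ]
    refine ⟨R, hR1, hR2, hR3, fun v hv hℓ => ?_⟩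
    by_cases hv2 : Ideal.absNorm v.asIdeal ∣ 2
    · have hv3 : ¬ Ideal.absNorm v.asIdeal ∣ 3 := by
        intro h
        have h4 := (Nat.prime_dvd_prime_iff_eq (norm_spec v).1 Nat.prime_two).1 hv2
        have h5 := (Nat.prime_dvd_prime_iff_eq (norm_spec v).1 Nat.prime_three).1 h
        omega
      refine ⟨fun τ hτ => one_of_trace R R' hR2 htr ((hR4' v hv3 hℓ).1 τ hτ), fun σ hσ => ?_⟩
      rw [charpoly_eq R R' htr σ]
      exact (hR4' v hv3 hℓ).2 σ hσ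
    · exact hR4 v hv2 hℓ

/-- **the existence theorem over `ℚ`** -/
theorem rat_main (hED : EDM) {n : ℕ} (j : E →+* QBar) (S : Finset ℕ) (P : ℕ → (𝓞 E)[X])
    (hres : PosUD (SResS S n P)) : ∃ U : Subgroup GQ, U.Normal ∧ IsOpen (U : Set GQ) ∧
      ∀ (ℓ : ℕ) [Fact ℓ.Prime] (κ : QBar →+* PadicAlgCl ℓ) (α : ℕ → Fin n → PadicAlgCl ℓ),
      (∀ p : ℕ, p.Prime → p ∉ S → (P p).map ((κ.comp j).comp (algebraMap (𝓞 E) E)) =
        ∏ i, (X - C (α p i))) →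
      ∃ R : GQ →* GL (Fin n) (PadicAlgCl ℓ), Continuous R ∧ IsSemisimple R ∧
        (∀ u ∈ U, (R u : Matrix (Fin n) (Fin n) (PadicAlgCl ℓ)).IsDiag) ∧
        ∀ p : ℕ, p.Prime → p ∉ S → p ≠ ℓ → Corresponds R p (α p) := by
  obtain ⟨U, h1, h2, h3⟩ := rat_core hED j S P hres
  refine ⟨U, h1, h2, fun ℓ _ κ α hα => ?_⟩
  obtain ⟨R, hR1, hR2, hR3, hR4⟩ := h3 ℓ κ
  have hfi : U.FiniteIndex := by
    have := Subgroup.quotient_finite_of_isOpen _ h2
    exact Subgroup.finiteIndex_of_finite_quotient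
  have hdiag : ∀ u ∈ U, (dual (R u) : Matrix (Fin n) (Fin n) (PadicAlgCl ℓ)).IsDiag := by
    intro u hu
    have h4 := hR3 u⁻¹ (U.inv_mem hu)
    rw [coe_dual, ← map_inv]
    exact h4.transpose
  refine ⟨dual.comp R, ?_, semi_dual R hR2, hdiag, ?_⟩
  · rw [Units.continuous_iff]
    constructor
    · have h4 : (Units.val ∘ (dual.comp R : GQ →* GL (Fin n) (PadicAlgCl ℓ))) = fun g : GK ℚ =>
          (R g⁻¹ : Matrix (Fin n) (Fin n) (PadicAlgCl ℓ)).transpose := by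
        funext g
        show (dual (R g) : Matrix (Fin n) (Fin n) (PadicAlgCl ℓ)) = _
        rw [coe_dual, map_inv]
      rw [h4]
      exact (hR1.comp continuous_inv).matrix_transpose
    · have h4 : (fun g : GQ => (((dual.comp R : GQ →* GL (Fin n) (PadicAlgCl ℓ)) g)⁻¹ :
          GL (Fin n) (PadicAlgCl ℓ)).val) = fun g : GK ℚ =>
          (R g : Matrix (Fin n) (Fin n) (PadicAlgCl ℓ)).transpose := by
        funext g
        show ((dual (R g))⁻¹ : GL (Fin n) (PadicAlgCl ℓ)).val = _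
        rw [← map_inv, coe_dual, inv_inv]
      exact h4 ▸ hR1.matrix_transpose
  · intro p hp hpS hpℓ
    constructor
    · intro Q hQ hpQ τ hτ
      obtain ⟨v, hv, hvp⟩ := below hp Q hQ hpQ
      have h5 := (hR4 v (hvp.symm ▸ hpS) (hvp.symm ▸ hpℓ)).1 τ ⟨Q, hQ, hv, hτ⟩
      show dual (R τ) = 1
      rw [h5, map_one]
    · intro Q hQ hpQ σ hσ
      obtain ⟨v, hv, hvp⟩ := below hp Q hQ hpQ
      have h5 := (hR4 v (hvp.symm ▸ hpS) (hvp.symm ▸ hpℓ)).2 σ⁻¹ (frob_of_geom hQ hσ hv hvp)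
      have h6 : (dual (R σ) : Matrix (Fin n) (Fin n) (PadicAlgCl ℓ)).charpoly =
          ∏ i, (X - C (α p i)) := by
        rw [charpoly_dual, ← map_inv, h5, hvp]
        exact hα p hp hpS
      have h7 : Diag ((dual.comp R) σ : Matrix (Fin n) (Fin n) (PadicAlgCl ℓ)) :=
        diag_of_index (dual.comp R) U h1 hfi hdiag σ
      exact h7.conj (α p) h6

end

end Pool.Agent.H500.ED
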