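import Pool.Agent.H500.ED.Parts
import Pool.Agent.H500.ED.Rat2
import Pool.Agent.H719.ME.TYU
import Pool.Agent.H218.ED.TINV2

set_option autoImplicit false

/-!
# Existence of `ℓ-adic` representations: the main theorem
-/

namespace Pool.Agent.H500.ED

theorem all_TINV : S_TINV := Pool.Agent.H218.ED.TINV2.main Pool.Agent.H719.ME.TYU.main

theorem all_ETA : S_ETA :=
  Pool.Agent.H218.ED.ETA.main all_FXE all_FXF all_FXC all_TOW all_FXJ all_TINV all_ROOT all_AVA

theorem all_EDM : EDM := fun _ _ _ _ _ _ j N n hN P hP =>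
  main_of all_FXE all_FXF all_AVA all_ETA all_DIAG all_LIFD all_RTW all_FXJ all_FXC all_CMP
    all_FIN all_SEM j N n hN P hP

end Pool.Agent.H500.ED
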