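import Pool.Agent.H500.MWM

set_option autoImplicit false
set_option linter.unusedSectionVars false

/-!
# A matrix with a diagonal invertible power is diagonalizable
-/

namespace Pool.Agent.H500.ED

open Polynomial Module
open Pool.Agent.H500.MW (Diag)

variable {k : Type} [Field k] {n : ℕ}

theorem basis_of_pow [IsAlgClosed k] [CharZero k] (G : Matrix (Fin n) (Fin n) k) (N : ℕ)
    (hN : 0 < N) (c : Fin n → k) (hc : ∀ i, c i ≠ 0) (hG : G ^ N = Matrix.diagonal c) :
    ∃ (b : Basis (Fin n) k (Fin n → k)) (d : Fin n → k), ∀ i, G.mulVec (b i) = d i • b i := by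
  classical
  set f : Module.End k (Fin n → k) := Matrix.toLin' G with hf
  have hfN : f ^ N = Matrix.toLin' (Matrix.diagonal c) := by
    rw [hf, ← Matrix.toLin'_pow, hG]
  set q : k[X] := ∏ a ∈ Finset.univ.image c, (X ^ N - C a) with hq
  have hNk : (N : k) ≠ 0 := by exact_mod_cast hN.ne'
  have hsep : q.Separable := by
    refine Polynomial.separable_prod' ?_ ?_
    · intro a _ b _ hab
      have hu : IsUnit (C (b - a) : k[X]) :=
        Polynomial.isUnit_C.2 (isUnit_iff_ne_zero.2 (sub_ne_zero.2 (Ne.symm hab)))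
      obtain ⟨u, hu⟩ := hu
      refine ⟨(u⁻¹ : k[X]ˣ), -(u⁻¹ : k[X]ˣ), ?_⟩
      have h1 : (X ^ N - C a) - (X ^ N - C b) = (u : k[X]) := by
        rw [hu, C_sub]
        ring
      have h2 : ((u⁻¹ : k[X]ˣ) : k[X]) * (X ^ N - C a) + -((u⁻¹ : k[X]ˣ) : k[X]) * (X ^ N - C b) =
          ((u⁻¹ : k[X]ˣ) : k[X]) * ((X ^ N - C a) - (X ^ N - C b)) := by ring
      rw [h2, h1, Units.inv_mul]
    · intro a ha
      obtain ⟨i, _, rfl⟩ := Finset.mem_image.1 ha
      exact Polynomial.separable_X_pow_sub_C _ hNk (hc i)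
  have hss : f.IsSemisimple := by
    apply Module.End.isSemisimple_of_squarefree_aeval_eq_zero hsep.squarefree
    refine (Pi.basisFun k (Fin n)).ext fun i => ?_
    have hmem : c i ∈ Finset.univ.image c := Finset.mem_image_of_mem c (Finset.mem_univ i)
    rw [hq, ← Finset.prod_erase_mul _ _ hmem, map_mul, Module.End.mul_apply]
    have h1 : (aeval f (X ^ N - C (c i))) (Pi.basisFun k (Fin n) i) = 0 := by
      rw [map_sub, map_pow, aeval_X, aeval_C, hfN, LinearMap.sub_apply]
      rw [Matrix.toLin'_apply, Module.algebraMap_end_apply]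
      ext j
      rw [Pi.sub_apply, Matrix.mulVec_diagonal, Pi.smul_apply, smul_eq_mul, Pi.basisFun_apply]
      by_cases h : j = i
      · subst h
        simp
      · simp [Pi.single_eq_of_ne h]
    rw [h1, map_zero]
    rfl
  have htop := hss.iSup_eigenspace_eq_top
  have hint : DirectSum.IsInternal f.eigenspace :=
    DirectSum.isInternal_submodule_of_iSupIndep_of_iSup_eq_top f.eigenspaces_iSupIndep htop
  set b0 := hint.collectedBasis (fun μ => Module.finBasis k (f.eigenspace μ)) with hb0
  have hfin : Finite (Σ μ : k, Fin (Module.finrank k (f.eigenspace μ))) :=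
    Module.Finite.finite_basis b0
  have : Fintype (Σ μ : k, Fin (Module.finrank k (f.eigenspace μ))) := Fintype.ofFinite _
  have hcard : Fintype.card (Σ μ : k, Fin (Module.finrank k (f.eigenspace μ))) =
      Fintype.card (Fin n) := by
    rw [← Module.finrank_eq_card_basis b0, Module.finrank_fintype_fun_eq_card]
  have e := Fintype.equivOfCardEq hcard
  set b : Module.Basis (Fin n) k (Fin n → k) := b0.reindex e with hb
  set d : Fin n → k := fun i => (e.symm i).1 with hd
  refine ⟨b, d, ?_⟩
  intro i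
  have h1 : b i = b0 (e.symm i) := by rw [hb, Module.Basis.reindex_apply]
  have h2 : b i ∈ f.eigenspace (d i) := by
    rw [h1]
    exact hint.collectedBasis_mem _ _
  rw [Module.End.mem_eigenspace_iff, hf, Matrix.toLin'_apply] at h2
  exact h2

/-- a representation which is diagonal on a subgroup of finite index has diagonalizable matrices -/
theorem diag_of_index [IsAlgClosed k] [CharZero k] {G : Type} [Group G] (ρ : G →* GL (Fin n) k)
    (U : Subgroup G) (hn : U.Normal) (hU : U.FiniteIndex)
    (hd : ∀ u ∈ U, (ρ u : Matrix (Fin n) (Fin n) k).IsDiag) (g : G) :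
    Diag (ρ g : Matrix (Fin n) (Fin n) k) := by
  classical
  have h1 : g ^ U.index ∈ U := U.pow_index_mem g
  have h2 := (hd _ h1).diagonal_diag
  set c : Fin n → k := (ρ (g ^ U.index) : Matrix (Fin n) (Fin n) k).diag with hc
  have h3 : (ρ g : Matrix (Fin n) (Fin n) k) ^ U.index = Matrix.diagonal c := by
    rw [hc, h2, map_pow, Units.val_pow_eq_pow_val]
  have h4 : ∀ i, c i ≠ 0 := by
    intro i h0
    have h5 : (ρ (g ^ U.index) : Matrix (Fin n) (Fin n) k).det = 0 := by
      rw [← h2, Matrix.det_diagonal]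
      exact Finset.prod_eq_zero (Finset.mem_univ i) h0
    have h6 : IsUnit (ρ (g ^ U.index) : Matrix (Fin n) (Fin n) k).det :=
      (Matrix.isUnit_iff_isUnit_det _).1 (ρ (g ^ U.index)).isUnit
    rw [h5] at h6
    exact not_isUnit_zero h6
  obtain ⟨b, d, hbd⟩ := basis_of_pow _ U.index (Nat.pos_of_ne_zero hU.index_ne_zero) c h4 h3
  obtain ⟨h, hh⟩ := Pool.Agent.Y800.conj_of_basis _ b d hbd
  exact ⟨h, d, hh⟩

end Pool.Agent.H500.ED
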