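import Pool.Agent.H500.ED.Main3

set_option autoImplicit false
set_option linter.unusedSectionVars false

/-!
# The existence theorem for arbitrary embeddings of the coefficient field
-/

namespace Pool.Agent.H500.ED

open NumberField IsDedekindDomain Filter Topology Polynomial
open Pool.Agent.W401.Cheb (GK IsFrob IsInert dens)
open Pool.Agent.H500.HC (InRay QBar ZBar jz)
open Pool.Agent.H500.MW (PosUD)
open Pool.Agent.H500.TH (SolRes)
open Pool.Agent.H500.ZO (PotHecke SemiS)

/-- an embedding of a number field in an algebraically closed field extends to `ℚ̄` -/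
theorem exists_ext {E : Type} [Field E] [NumberField E] (j : E →+* QBar) {C : Type} [Field C]
    [CharZero C] [IsAlgClosed C] (κ : E →+* C) : ∃ κ' : QBar →+* C, κ'.comp j = κ := by
  letI := j.toAlgebra
  letI := κ.toAlgebra
  haveI h1 : Algebra.IsAlgebraic ℚ QBar := AlgebraicClosure.isAlgebraic ℚ
  haveI : Algebra.IsAlgebraic E QBar := Algebra.IsAlgebraic.tower_top (K := ℚ) E
  let f : QBar →ₐ[E] C := IsAlgClosed.lift
  exact ⟨f.toRingHom, f.comp_algebraMap⟩

end Pool.Agent.H500.ED
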