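import Pool.Agent.H500.ED.Stm
import Pool.Agent.H500.ZO.All

set_option autoImplicit false
set_option linter.unusedSectionVars false

/-!
# Project ED: the assembly, first part
-/

namespace Pool.Agent.H500.ED

open NumberField IsDedekindDomain Filter Topology Polynomial
open Pool.Agent.W401.Cheb (GK IsFrob IsInert dens)
open Pool.Agent.H500.HC
open Pool.Agent.H500.MW (PosUD dens_exists posUD_of_not)
open Pool.Agent.H500.R2 (UnrOut SpC fin_range frob_at exists_char)
open Pool.Agent.H500.SV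
open Pool.Agent.H500.TH
open Pool.Agent.H500.ZO (PotHecke)

section

variable {K E : Type} [Field K] [NumberField K] [Field E] [NumberField E]

/-- a residual representation at `lam` which is diagonal on `U` -/
structure DR (j : E →+* QBar) (N n : ℕ) (P : HeightOneSpectrum (𝓞 K) → (𝓞 E)[X])
    (U : Subgroup (GK K)) (lam : HeightOneSpectrum (𝓞 E)) where
  k : Type
  [fk : Field k]
  [ac : IsAlgClosed k]
  r : ZBar →+* k
  ρ : GK K →* GL (Fin n) k
  hker : RingHom.ker (r.comp (jz j)) = lam.asIdeal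
  hop : IsOpen (ρ.ker : Set (GK K))
  hun : UnrOut (N * Ideal.absNorm lam.asIdeal) ρ.ker
  hfr : ∀ v : HeightOneSpectrum (𝓞 K), (N : 𝓞 K) ∉ v.asIdeal →
    ((Ideal.absNorm lam.asIdeal : ℕ) : 𝓞 K) ∉ v.asIdeal → ∀ σ, IsFrob v σ →
    (ρ σ : Matrix (Fin n) (Fin n) k).charpoly = (P v).map (r.comp (jz j))
  hdiag : ∀ u ∈ U, (ρ u : Matrix (Fin n) (Fin n) k).IsDiag

attribute [instance] DR.fk DR.ac

/-- all the data over the field of `U` -/
theorem sol_ed (hFXE : S_FXE) (hFXF : S_FXF) (j : E →+* QBar) (N n : ℕ) (hN : 2 ≤ N)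
    (P : HeightOneSpectrum (𝓞 K) → (𝓞 E)[X]) (hP : PosUD (SolRes N n P)) :
    ∃ (U : Subgroup (GK K)) (L : Type) (_ : Field L) (_ : NumberField L) (_ : Algebra K L)
      (ι : GK L →* GK K) (ε : AlgebraicClosure L ≃+* AlgebraicClosure K) (e : ℕ)
      (t : Fin n → (L →+* QBar) → ℕ) (ψ : Fin n → (Ideal (𝓞 L) →*₀ ZBar)),
      PotHecke j N n P U L ι e t ψ ∧ FX U L ι ε ∧ PosUD (fun lam => Nonempty (DR j N n P U lam)) := by
  classical
  have hmon := monic_sol N n P hP.infinite
  have hex : ∀ v : HeightOneSpectrum (𝓞 K), ∃ α : Fin n → ZBar, (N : 𝓞 K) ∉ v.asIdeal →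
      (P v).map (jz j) = ∏ i, (X - Polynomial.C (α i)) := by
    intro v
    by_cases hv : (N : 𝓞 K) ∉ v.asIdeal
    · obtain ⟨α, hα⟩ := exists_alpha j (hmon v hv).1 (hmon v hv).2
      exact ⟨α, fun _ => hα⟩
    · exact ⟨0, fun h => absurd h hv⟩
  choose α hα using hex
  obtain ⟨m0, hm0, hm⟩ := exists_m0 j N n P hmon α hα
  obtain ⟨β, hβ⟩ := exists_sd (K := K) all_SS all_Mal j N n
  obtain ⟨M, hM1, hM2⟩ := all_Cho n β m0 hm0
  -- a good exponent
  obtain ⟨t, ht⟩ := PosUD.exists (I := Fin (n ^ 2 + 1))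
    (fun t lam => ∃ S : SD j N n β P lam, S.Good (M t) m0) hP (fun lam hlam => by
      obtain ⟨S⟩ := hβ P lam hlam
      obtain ⟨t, ht⟩ := exists_good m0 M hM2 S
      exact ⟨t, S, ht⟩)
  obtain ⟨hMpos, hMdvd⟩ := hM1 t
  set D := β * M t ^ (n ^ 2) with hD
  -- the fields
  have hfin := all_HM K N D hN
  set 𝒰 := {U : Subgroup (GK K) | U.Normal ∧ IsOpen (U : Set (GK K)) ∧ U.index ≤ D ∧
    (∃ r, derivedSeries (GK K) r ≤ U) ∧ UnrOut N U} with h𝒰
  have hfint : Finite 𝒰 := hfin
  obtain ⟨r, ⟨eU⟩⟩ := Finite.exists_equiv_fin 𝒰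
  choose L f1 f2 f3 ι hι using fun a : Fin r => all_Fld K (eU.symm a).1 (eU.symm a).2.1
    (eU.symm a).2.2.1
  obtain ⟨F, _, _, i0, j', hj, hc⟩ := all_Emb E j r L
  have hinfv := all_TE2 K E F j N n β (M t) m0 P α (by omega) hm0 hMpos hMdvd hα hm _ ht.infinite
    (fun lam hlam => hlam)
  obtain ⟨U0, hUn, hUo, hUi, hUd, hUu, hU⟩ := all_TRes K E F i0 j N n β (M t) P α hN hMpos hMdvd hα
    hinfv (fun U h1 h2 h3 h4 h5 => by
      have hmem : U ∈ 𝒰 := ⟨h1, h2, h3, h4, h5⟩
      have h6 : (eU.symm (eU ⟨U, hmem⟩)).1 = U := by rw [Equiv.symm_apply_apply]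
      refine ⟨L (eU ⟨U, hmem⟩), f1 _, f2 _, f3 _, ι _, ?_, hc _⟩
      have h7 := hι (eU ⟨U, hmem⟩)
      rw [h6] at h7
      exact h7) _ ht (fun lam ⟨S, _⟩ => ⟨S⟩)
  obtain ⟨L0, _, _, _, ι0, ε, hFX⟩ := hFXE K U0 hUo
  have hL0 : Fld U0 L0 ι0 := hFXF K U0 L0 ι0 ε hUn hUo hFX
  obtain ⟨e, t', ψ, h1, h2, h3⟩ := all_TFin K E L0 j N n β (M t) P α U0 ι0 hN hL0 hα hU
  refine ⟨U0, L0, inferInstance, inferInstance, inferInstance, ι0, ε, e, t', ψ,
    { normal := hUn, isOpen := hUo, solv := hUd, unr := hUu, fld := hL0, monic := hmon, cop := h1,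
      typ := h2, eq := ?_ }, hFX, ?_⟩
  · intro v w f α' hv hw hf hα'
    rw [← h3 v w f hv hw hf]
    -- the roots are unique
    have h4 : ∏ i, (X - Polynomial.C (α v i)) = ∏ i, (X - Polynomial.C (α' i)) := by
      rw [← hα v hv, hα']
    have h5 : Finset.univ.val.map (α v) = Finset.univ.val.map α' := by
      have h6 := congrArg Polynomial.roots h4
      have e1 : ∀ β : Fin n → ZBar, ∏ i, (X - Polynomial.C (β i)) =
          ((Finset.univ.val.map β).map fun a => X - Polynomial.C a).prod := by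
        intro β
        rw [Multiset.map_map]
        rfl
      rw [e1, e1, roots_multiset_prod_X_sub_C, roots_multiset_prod_X_sub_C] at h6
      exact h6
    have h6 : Finset.univ.val.map (fun i => X - Polynomial.C (α v i ^ f)) =
        Finset.univ.val.map (fun i => X - Polynomial.C (α' i ^ f)) := by
      have := congrArg (Multiset.map fun a : ZBar => (X - Polynomial.C (a ^ f) : ZBar[X])) h5
      rwa [Multiset.map_map, Multiset.map_map] at this
    exact (congrArg Multiset.prod h6).symm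
  · refine hU.mono ?_
    rintro lam ⟨S, hS⟩
    exact ⟨{ k := S.k, r := S.ψ, ρ := S.ρ, hker := S.hker, hop := S.hop, hun := S.hun,
             hfr := S.hfr, hdiag := fun u hu => (hS u hu).1 }⟩

end

/-- in characteristic `l` there are no nontrivial `l`-th roots of unity -/
theorem pow_l_one {k : Type} [Field k] {l : ℕ} (hl : l.Prime) (hlk : (l : k) = 0) {y : k}
    (hy : y ^ l = 1) : y = 1 := by
  have : Fact l.Prime := ⟨hl⟩
  have hchar : ringChar k = l := by
    have h1 : ringChar k ∣ l := ringChar.dvd hlk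
    rcases (Nat.dvd_prime hl).1 h1 with h | h
    · exact absurd h (CharP.ringChar_ne_one)
    · exact h
  have : CharP k l := hchar ▸ ringChar.charP k
  exact frobenius_inj k l (by rw [frobenius_def, frobenius_def, hy, one_pow])

/-- the image has order prime to the characteristic -/
theorem range_card {G : Type} [Group G] {k : Type} [Field k] {n l : ℕ} (ρ : G →* GL (Fin n) k)
    (U : Subgroup G) (hU : U.Normal) (hfin : Finite ρ.range) (hl : l.Prime) (hlk : (l : k) = 0)
    (hi : ¬ l ∣ U.index) (hd : ∀ u ∈ U, (ρ u : Matrix (Fin n) (Fin n) k).IsDiag) :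
    ((Nat.card ρ.range : ℕ) : k) ≠ 0 := by
  have : Fact l.Prime := ⟨hl⟩
  intro h0
  have hchar : ringChar k = l := by
    have h1 : ringChar k ∣ l := ringChar.dvd hlk
    rcases (Nat.dvd_prime hl).1 h1 with h | h
    · exact absurd h (CharP.ringChar_ne_one)
    · exact h
  have hdvd : l ∣ Nat.card ρ.range := by
    rw [← hchar]
    exact ringChar.dvd h0
  obtain ⟨⟨x, g, rfl⟩, hx⟩ := exists_prime_orderOf_dvd_card' l hdvd
  have hx' : orderOf (ρ g) = l := by
    rw [← hx, ← Subgroup.orderOf_coe]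
  set m := U.index with hm
  have hgm : g ^ m ∈ U := by
    have := hU
    exact Subgroup.pow_index_mem U g
  have h1 : ρ (g ^ m) = 1 := by
    have hd' := hd _ hgm
    have hl1 : ρ (g ^ m) ^ l = 1 := by
      rw [map_pow, ← pow_mul, mul_comm, pow_mul, ← hx', pow_orderOf_eq_one, one_pow]
    apply Units.ext
    have h2 : (ρ (g ^ m) : Matrix (Fin n) (Fin n) k) =
        Matrix.diagonal fun i => (ρ (g ^ m) : Matrix (Fin n) (Fin n) k) i i :=
      hd'.diagonal_diag.symm
    have h3 : (ρ (g ^ m) : Matrix (Fin n) (Fin n) k) ^ l = 1 := by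
      have := congrArg Units.val hl1
      simpa using this
    rw [h2, Matrix.diagonal_pow, ← Matrix.diagonal_one] at h3
    have h4 := Matrix.diagonal_injective h3
    rw [h2]
    show Matrix.diagonal _ = (1 : Matrix (Fin n) (Fin n) k)
    rw [← Matrix.diagonal_one]
    congr 1
    funext i
    exact pow_l_one hl hlk (congrFun h4 i)
  rw [map_pow] at h1
  have h5 : l ∣ m := by
    rw [← hx']
    exact orderOf_dvd_of_pow_eq_one h1
  exact hi h5

/-- continuous characters which agree at the Frobenius elements are equal -/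
theorem hom_eq {L : Type} [Field L] [NumberField L] {C : Type} [NormedField C]
    (f g : GK L →* Cˣ) (hf : Continuous fun s => (f s : C)) (hg : Continuous fun s => (g s : C))
    {M : ℕ} (hM : 0 < M) (h : ∀ w : HeightOneSpectrum (𝓞 L), (M : 𝓞 L) ∉ w.asIdeal →
      ∀ s, IsFrob w s → (f s : C) = g s) : f = g := by
  apply MonoidHom.ext
  intro x
  apply Units.ext
  by_contra hne
  have hδ : 0 < ‖(f x : C) - g x‖ := norm_pos_iff.2 (sub_ne_zero.2 hne)
  have hc : Continuous fun s => (f s : C) - g s := hf.sub hg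
  obtain ⟨V, hV1, hV2, hV3⟩ := Pool.Agent.H139.ZO.ABL.nhd _ hc x hδ
  obtain ⟨w, s, -, hw, hs, hsV⟩ := Pool.Agent.H139.ZO.frob_ex V hV1 hV2 x
    (B := ∅) Set.finite_empty hM
  have h1 := hV3 _ hsV
  have h2 : x * (x⁻¹ * s) = s := by group
  simp only [h2] at h1
  rw [h w hw s hs, sub_self, zero_sub, norm_neg] at h1
  exact lt_irrefl _ h1

end Pool.Agent.H500.ED
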