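import Pool.Agent.H500.ED.Main1

set_option autoImplicit false
set_option linter.unusedSectionVars false

/-!
# Project ED: the assembly, second part (one place `lam`)
-/

namespace Pool.Agent.H500.ED

open NumberField IsDedekindDomain Filter Topology Polynomial
open Pool.Agent.W401.Cheb (GK IsFrob IsInert dens)
open Pool.Agent.H500.HC
open Pool.Agent.H500.MW (PosUD dens_exists posUD_of_not)
open Pool.Agent.H500.R2 (UnrOut SpC fin_range frob_at exists_char)
open Pool.Agent.H500.SV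
open Pool.Agent.H500.TH
open Pool.Agent.H500.ZO (PotHecke)
open Pool.Agent.H894.TH.TFin (exists_below above_unique above_nat)
open Pool.Agent.H37.SV (charpoly_pow)

/-! ### Characters on the diagonal -/

section
variable {G H : Type} [Group G] [Group H] {n : ℕ} {F : Type} [Field F]

theorem mul_diag {A B : Matrix (Fin n) (Fin n) F} (hA : A.IsDiag) (hB : B.IsDiag) (i : Fin n) :
    (A * B) i i = A i i * B i i := by
  have h1 : A = Matrix.diagonal fun i => A i i := hA.diagonal_diag.symm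
  have h2 : B = Matrix.diagonal fun i => B i i := hB.diagonal_diag.symm
  rw [h1, h2, Matrix.diagonal_mul_diagonal, Matrix.diagonal_apply_eq, Matrix.diagonal_apply_eq,
    Matrix.diagonal_apply_eq]

/-- the `i`-th diagonal entry as a character -/
noncomputable def dchar (ρ : G →* GL (Fin n) F) (ι : H →* G)
    (hd : ∀ s, (ρ (ι s) : Matrix (Fin n) (Fin n) F).IsDiag) (i : Fin n) : H →* Fˣ :=
  MonoidHom.toHomUnits
    { toFun := fun s => (ρ (ι s) : Matrix (Fin n) (Fin n) F) i i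
      map_one' := by
        rw [map_one, map_one]
        simp
      map_mul' := by
        intro s s'
        rw [map_mul, map_mul, Matrix.GeneralLinearGroup.coe_mul]
        exact mul_diag (hd s) (hd s') i }

theorem dchar_apply (ρ : G →* GL (Fin n) F) (ι : H →* G)
    (hd : ∀ s, (ρ (ι s) : Matrix (Fin n) (Fin n) F).IsDiag) (i : Fin n) (s : H) :
    (dchar ρ ι hd i s : F) = (ρ (ι s) : Matrix (Fin n) (Fin n) F) i i := rfl

theorem dchar_ker (ρ : G →* GL (Fin n) F) (ι : H →* G)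
    (hd : ∀ s, (ρ (ι s) : Matrix (Fin n) (Fin n) F).IsDiag) (i : Fin n) :
    ρ.ker.comap ι ≤ (dchar ρ ι hd i).ker := by
  intro s hs
  rw [Subgroup.mem_comap, MonoidHom.mem_ker] at hs
  rw [MonoidHom.mem_ker]
  apply Units.ext
  rw [dchar_apply, hs]
  simp

/-- the stabilizer of the `i`-th character -/
def stab (ρ : G →* GL (Fin n) F) (U : Subgroup G) (hU : U.Normal) (i : Fin n) : Subgroup G where
  carrier := {g | ∀ u ∈ U, (ρ (g⁻¹ * u * g) : Matrix (Fin n) (Fin n) F) i i =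
    (ρ u : Matrix (Fin n) (Fin n) F) i i}
  one_mem' := by
    intro u hu
    rw [inv_one, one_mul, mul_one]
  mul_mem' := by
    intro g h hg hh u hu
    have e : (g * h)⁻¹ * u * (g * h) = h⁻¹ * (g⁻¹ * u * g) * h := by group
    have hm : g⁻¹ * u * g ∈ U := by
      have := hU.conj_mem u hu g⁻¹
      rwa [inv_inv] at this
    rw [e, hh _ hm, hg u hu]
  inv_mem' := by
    intro g hg u hu
    have h1 := hg (g * u * g⁻¹) (hU.conj_mem u hu g)
    have e : g⁻¹ * (g * u * g⁻¹) * g = u := by group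
    rw [e] at h1
    rw [inv_inv]
    exact h1.symm

theorem mem_stab (ρ : G →* GL (Fin n) F) (U : Subgroup G) (hU : U.Normal) (i : Fin n) (g : G) :
    g ∈ stab ρ U hU i ↔ ∀ u ∈ U, (ρ (g⁻¹ * u * g) : Matrix (Fin n) (Fin n) F) i i =
      (ρ u : Matrix (Fin n) (Fin n) F) i i := Iff.rfl

theorem le_stab (ρ : G →* GL (Fin n) F) (U : Subgroup G) (hU : U.Normal)
    (hd : ∀ u ∈ U, (ρ u : Matrix (Fin n) (Fin n) F).IsDiag) (i : Fin n) :
    U ≤ stab ρ U hU i := by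
  intro g hg u hu
  have h1 : (ρ (g⁻¹ * u * g) : Matrix (Fin n) (Fin n) F) =
      (ρ g⁻¹ : Matrix (Fin n) (Fin n) F) * ρ u * ρ g := by
    rw [map_mul, map_mul]
    rfl
  have h2 : ((ρ g⁻¹ : Matrix (Fin n) (Fin n) F) * ρ u).IsDiag := by
    have := hd _ (U.mul_mem (U.inv_mem hg) hu)
    rw [map_mul] at this
    exact this
  have h3 : (ρ g⁻¹ : Matrix (Fin n) (Fin n) F) i i * (ρ g : Matrix (Fin n) (Fin n) F) i i = 1 := by
    rw [← mul_diag (hd _ (U.inv_mem hg)) (hd _ hg)]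
    have : (ρ g⁻¹ : Matrix (Fin n) (Fin n) F) * ρ g = 1 := by
      rw [← Matrix.GeneralLinearGroup.coe_mul, ← map_mul, inv_mul_cancel, map_one]
      rfl
    rw [this, Matrix.one_apply_eq]
  rw [h1, mul_diag h2 (hd _ hg), mul_diag (hd _ (U.inv_mem hg)) (hd _ hu), mul_right_comm, h3,
    one_mul]

end

section
variable {G H : Type} [Group G] [Group H] {C : Type} [Zero C]

open scoped Classical in
/-- extension by zero -/
noncomputable def extU (ι : H →* G) (f : H → C) (g : G) : C :=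
  if h : ∃ s, ι s = g then f h.choose else 0

theorem extU_apply {ι : H →* G} (hι : Function.Injective ι) (f : H → C) (s : H) :
    extU ι f (ι s) = f s := by
  have h : ∃ s', ι s' = ι s := ⟨s, rfl⟩
  unfold extU
  rw [dif_pos h]
  exact congrArg f (hι h.choose_spec)

end

theorem charpoly_isDiag {n : ℕ} {F : Type} [Field F] {A : Matrix (Fin n) (Fin n) F}
    (hA : A.IsDiag) : A.charpoly = ∏ i, (X - Polynomial.C (A i i)) := by
  have h1 : A = Matrix.diagonal fun i => A i i := hA.diagonal_diag.symm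
  conv_lhs => rw [h1]
  rw [Matrix.charpoly_of_upperTriangular _ (Matrix.blockTriangular_diagonal _)]
  refine Finset.prod_congr rfl fun i _ => ?_
  rw [Matrix.diagonal_apply_eq]

section

variable {K E : Type} [Field K] [NumberField K] [Field E] [NumberField E]

/-- the exceptional places of `S_CMP` -/
def BadC {K : Type} [Field K] [NumberField K] {E : Type} [Field E] [NumberField E] (j : E →+* QBar)
    (N : ℕ) {n : ℕ} {L : Type} [Field L] [NumberField L] (ι : GK L →* GK K)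
    (ψ : Fin n → (Ideal (𝓞 L) →*₀ ZBar)) : Set (HeightOneSpectrum (𝓞 E)) :=
  {lam : HeightOneSpectrum (𝓞 E) | ∃ (k : Type) (_ : Field k) (r : ZBar →+* k) (y : GK K)
    (a b : Fin n), RingHom.ker (r.comp (jz j)) = lam.asIdeal ∧ ¬ Conjp ι ψ y a b ∧
    ∀ (w w' : HeightOneSpectrum (𝓞 L)) (s s' : GK L), (N : 𝓞 L) ∉ w.asIdeal →
      (N : 𝓞 L) ∉ w'.asIdeal → ((Ideal.absNorm lam.asIdeal : ℕ) : 𝓞 L) ∉ w.asIdeal →
      ((Ideal.absNorm lam.asIdeal : ℕ) : 𝓞 L) ∉ w'.asIdeal → IsFrob w s → IsFrob w' s' →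
      ι s' = y⁻¹ * ι s * y → r (ψ b w.asIdeal) = r (ψ a w'.asIdeal)}

variable {j : E →+* QBar} {N n : ℕ} {P : HeightOneSpectrum (𝓞 K) → (𝓞 E)[X]}
  {U : Subgroup (GK K)} {L : Type} [Field L] [NumberField L] [Algebra K L] {ι : GK L →* GK K}
  {ε : AlgebraicClosure L ≃+* AlgebraicClosure K} {e : ℕ} {t : Fin n → (L →+* QBar) → ℕ}
  {ψ : Fin n → (Ideal (𝓞 L) →*₀ ZBar)}

/-- **one place** -/
theorem one_lam (hETA : S_ETA) (hDIAG : S_DIAG) (hLIFD : S_LIFD) (hRTW : S_RTW) (hFXJ : S_FXJ)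
    (hFXC : S_FXC) (hN : 2 ≤ N) (H : PotHecke j N n P U L ι e t ψ) (hFX : FX U L ι ε)
    (ℓ : ℕ) [Fact ℓ.Prime] (κ : QBar →+* PadicAlgCl ℓ) (Ψ : Fin n → (GK L →* (PadicAlgCl ℓ)ˣ))
    (hΨc : ∀ i, Continuous fun s => (Ψ i s : PadicAlgCl ℓ))
    (hΨ : ∀ i, ∀ w : HeightOneSpectrum (𝓞 L), (N : 𝓞 L) ∉ w.asIdeal → (ℓ : 𝓞 L) ∉ w.asIdeal →
      ∀ s, IsFrob w s → (Ψ i s : PadicAlgCl ℓ) = κ (ψ i w.asIdeal : ZBar))
    {lam : HeightOneSpectrum (𝓞 E)} (S : DR j N n P U lam) (h1 : (N : 𝓞 E) ∉ lam.asIdeal)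
    (h2 : (U.index : 𝓞 E) ∉ lam.asIdeal) (h3 : (n.factorial : 𝓞 E) ∉ lam.asIdeal)
    (h4 : lam ∉ BadC j N ι ψ) :
    ∃ (π : Fin n ≃ Fin n) (R : GK K →* GL (Fin n) (PadicAlgCl ℓ)),
      Continuous (fun g => (R g : Matrix (Fin n) (Fin n) (PadicAlgCl ℓ))) ∧
      (∀ u ∈ U, (R u : Matrix (Fin n) (Fin n) (PadicAlgCl ℓ)) =
        Matrix.diagonal fun i => extU ι (fun s => (Ψ (π i) s : PadicAlgCl ℓ)) u) ∧
      ∀ v : HeightOneSpectrum (𝓞 K), (N : 𝓞 K) ∉ v.asIdeal →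
        ((Ideal.absNorm lam.asIdeal : ℕ) : 𝓞 K) ∉ v.asIdeal → (ℓ : 𝓞 K) ∉ v.asIdeal →
        ∀ σ, IsFrob v σ → ∀ m : ℕ, 0 < m → ∀ α : Fin n → ZBar,
          (P v).map (jz j) = ∏ i, (X - Polynomial.C (α i)) →
          ∃ z : ZBar, (R (σ ^ m) : Matrix (Fin n) (Fin n) (PadicAlgCl ℓ)).trace = κ (z : QBar) ∧
            S.r z = S.r (∑ i, α i ^ m) := by
  classical
  have hℓp : ℓ.Prime := Fact.out
  obtain ⟨l, f, hl, hlm, hf, hnorm⟩ := exists_char lam
  have hlk : (l : S.k) = 0 := by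
    have : (l : 𝓞 E) ∈ RingHom.ker (S.r.comp (jz j)) := by rw [S.hker]; exact hlm
    rwa [RingHom.mem_ker, map_natCast] at this
  have hnat : ∀ a : ℕ, (a : 𝓞 E) ∉ lam.asIdeal → ¬ l ∣ a := fun a ha hd =>
    ha ((natCast_mem_iff_dvd hl hlm).2 hd)
  have hnatk : ∀ a : ℕ, (a : 𝓞 E) ∉ lam.asIdeal → (a : S.k) ≠ 0 := by
    intro a ha h0
    apply ha
    rw [← S.hker, RingHom.mem_ker, map_natCast, h0]
  have hlN : l.Coprime N := (Nat.Prime.coprime_iff_not_dvd hl).2 (hnat N h1)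
  have hU := H.normal
  have hUo := H.isOpen
  have hιinj : Function.Injective ι := H.fld.inj
  have hmem : ∀ s : GK L, ι s ∈ U := by
    intro s
    rw [← H.fld.range]
    exact ⟨s, rfl⟩
  have hmemU : ∀ u ∈ U, ∃ s, ι s = u := by
    intro u hu
    rw [← H.fld.range] at hu
    exact hu
  -- places of `L` not containing `l`
  have hnl : ∀ w : HeightOneSpectrum (𝓞 L), (l : 𝓞 L) ∉ w.asIdeal →
      ((Ideal.absNorm lam.asIdeal : ℕ) : 𝓞 L) ∉ w.asIdeal := by
    intro w hw h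
    rw [hnorm, Nat.cast_pow] at h
    exact hw (w.isPrime.mem_of_pow_mem _ h)
  have hnl' : ∀ w : HeightOneSpectrum (𝓞 L), ((Ideal.absNorm lam.asIdeal : ℕ) : 𝓞 L) ∉ w.asIdeal →
      (l : 𝓞 L) ∉ w.asIdeal := by
    intro w hw h
    apply hw
    rw [hnorm, Nat.cast_pow]
    exact Ideal.pow_mem_of_mem _ h _ hf
  have hnlK : ∀ v : HeightOneSpectrum (𝓞 K), ((Ideal.absNorm lam.asIdeal : ℕ) : 𝓞 K) ∉ v.asIdeal →
      (l : 𝓞 K) ∉ v.asIdeal := by
    intro w hw h
    apply hw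
    rw [hnorm, Nat.cast_pow]
    exact Ideal.pow_mem_of_mem _ h _ hf
  -- Hecke characters
  have hHecke : ∀ i, IsHecke (N ^ (e + 1)) N (t i) (ψ i) := fun i =>
    { cop := H.cop i
      typ := fun x hx => H.typ i x (InRay.mono (pow_dvd_pow N (Nat.le_succ e)) hx) }
  -- the characters of the residual representation
  have hdS : ∀ s : GK L, (S.ρ (ι s) : Matrix (Fin n) (Fin n) S.k).IsDiag := fun s =>
    S.hdiag _ (hmem s)
  set δ : Fin n → (GK L →* S.kˣ) := dchar S.ρ ι hdS with hδ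
  have hcp : ∀ w : HeightOneSpectrum (𝓞 L), (N : 𝓞 L) ∉ w.asIdeal → (l : 𝓞 L) ∉ w.asIdeal →
      ∀ s, IsFrob w s → ∏ i, (X - Polynomial.C (δ i s : S.k)) =
        ∏ i, (X - Polynomial.C (S.r (ψ i w.asIdeal))) := by
    intro w hw hwl s hs
    obtain ⟨v, hv⟩ := exists_below (K := K) w
    have hvN : (N : 𝓞 K) ∉ v.asIdeal := fun h => hw ((above_nat hv N).1 h)
    have hvl : ((Ideal.absNorm lam.asIdeal : ℕ) : 𝓞 K) ∉ v.asIdeal := fun h =>
      hnl w hwl ((above_nat hv _).1 h)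
    have h5 := Pool.Agent.H139.ZO.frob_cp H S.r S.ρ hvN (fun τ hτ => by
      have h6 : τ ∈ S.ρ.ker := by
        refine S.hun v ?_ τ hτ
        intro h
        rw [Nat.cast_mul] at h
        rcases v.isPrime.mem_or_mem h with h | h
        · exact hvN h
        · exact hvl h
      exact MonoidHom.mem_ker.1 h6) (fun σ hσ => S.hfr v hvN hvl σ hσ) hv hs
    rw [← h5, charpoly_isDiag (hdS s)]
    exact Finset.prod_congr rfl fun i _ => by rw [hδ, dchar_apply]
  obtain ⟨π, hπ⟩ := hDIAG L N (e + 1) l n t ψ S.k S.r δ hN hl hlN hlk (hnatk _ h3) hHecke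
    (fun i => Subgroup.isOpen_mono (dchar_ker S.ρ ι hdS i) (H.fld.comap_open _ S.hop)) hcp
  have hπ' : ∀ i, ∀ w : HeightOneSpectrum (𝓞 L), (N : 𝓞 L) ∉ w.asIdeal → (l : 𝓞 L) ∉ w.asIdeal →
      ∀ s, IsFrob w s → (S.ρ (ι s) : Matrix (Fin n) (Fin n) S.k) i i =
        S.r (ψ (π i) w.asIdeal) := fun i w hw hwl s hs => by
    rw [← hπ i w hw hwl s hs, hδ, dchar_apply]
  -- lifting
  have hfinS : Finite S.ρ.range := fin_range S.ρ S.hop
  obtain ⟨ρ', hk', htr, hdg⟩ := hLIFD (GK K) U n S.k S.r S.ρ hfinS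
    (range_card S.ρ U hU hfinS hl hlk (hnat _ h2) S.hdiag) (hnatk _ h3) S.hdiag
  have hop' : IsOpen (ρ'.ker : Set (GK K)) := Subgroup.isOpen_mono hk' S.hop
  have hd' : ∀ u ∈ U, (ρ' u : Matrix (Fin n) (Fin n) QBar).IsDiag := fun u hu => (hdg u hu).1
  have hd's : ∀ s : GK L, (ρ' (ι s) : Matrix (Fin n) (Fin n) QBar).IsDiag := fun s =>
    hd' _ (hmem s)
  set τ : Fin n → (GK L →* QBarˣ) := dchar ρ' ι hd's with hτ
  -- conjugate characters
  have hconj : ∀ (y : GK K) (a b : Fin n),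
      (∀ u ∈ U, (ρ' (y⁻¹ * u * y) : Matrix (Fin n) (Fin n) QBar) a a =
        (ρ' u : Matrix (Fin n) (Fin n) QBar) b b) → Conjp ι ψ y (π a) (π b) := by
    intro y a b hab
    by_contra hcon
    apply h4
    refine ⟨S.k, inferInstance, S.r, y, π a, π b, S.hker, hcon, ?_⟩
    intro w w' s s' hw hw' hwl hwl' hs hs' hss
    obtain ⟨z, m, hz1, hz2, -⟩ := (hdg _ (hmem s)).2 b
    obtain ⟨z', m', hz1', hz2', -⟩ := (hdg _ (hmem s')).2 a
    rw [← hπ' b w hw (hnl' w hwl) s hs, ← hπ' a w' hw' (hnl' w' hwl') s' hs', ← hz2, ← hz2']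
    have h5 : (z : QBar) = (z' : QBar) := by
      rw [← hz1, ← hz1', hss]
      exact (hab _ (hmem s)).symm
    rw [RingOfIntegers.coe_injective h5]
  -- the characters `η`
  have hη : ∀ i : Fin n, ∃ η : stab ρ' U hU i →* (PadicAlgCl ℓ)ˣ,
      Continuous (fun h => (η h : PadicAlgCl ℓ)) ∧
      (∀ (s : GK L) (hs : ι s ∈ stab ρ' U hU i),
        (η ⟨ι s, hs⟩ : PadicAlgCl ℓ) * κ (τ i s : QBar) = Ψ (π i) s) ∧
      ∀ v : HeightOneSpectrum (𝓞 K), (N : 𝓞 K) ∉ v.asIdeal → (l : 𝓞 K) ∉ v.asIdeal →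
        (ℓ : 𝓞 K) ∉ v.asIdeal → ∀ σ, IsFrob v σ → ∀ (y : GK K) (m : ℕ), 0 < m →
        ∀ h : y⁻¹ * σ ^ m * y ∈ stab ρ' U hU i, ∃ z : ZBar,
          (η ⟨_, h⟩ : PadicAlgCl ℓ) = κ (z : QBar) ∧ S.r z = 1 := by
    intro i
    refine hETA K U (stab ρ' U hU i) L ι ε N (e + 1) l (t (π i)) (ψ (π i)) S.k S.r (τ i) ℓ κ
      (Ψ (π i)) hU hUo (le_stab ρ' U hU hd' i) hFX hN hl hlN (hnat _ h2) hlk (hHecke (π i)) ?_ ?_ ?_
      (hΨc (π i)) (hΨ (π i))
    · intro y hy w w' s s' hs hs' hss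
      exact hconj y i i hy w w' s s' hs hs' hss
    · exact Subgroup.isOpen_mono (dchar_ker ρ' ι hd's i) (H.fld.comap_open _ hop')
    · intro w hw hwl s hs
      obtain ⟨z, m, hz1, hz2, hm, hmk, hzm⟩ := (hdg _ (hmem s)).2 i
      refine ⟨z, m, ?_, ?_, hm, ?_, hzm⟩
      · rw [hτ, dchar_apply, hz1]
      · rw [hz2, hπ' i w hw hwl s hs]
      · intro hd
        apply hmk
        obtain ⟨c, hc⟩ := hd
        rw [hc, Nat.cast_mul, hlk, zero_mul]
  choose η hηc hη1 hη2 using hη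
  have hcι : Continuous ι := (hFXC K U L ι ε hUo hFX).2.2.1
  -- the representation
  obtain ⟨R, hR1, hR2, hR3⟩ := hRTW (GK K) U n ρ' S.k S.r (PadicAlgCl ℓ) κ
    (fun i => extU ι fun s => (Ψ (π i) s : PadicAlgCl ℓ)) (fun i => stab ρ' U hU i) η hU hUo hop'
    (fin_range ρ' hop') hd' (fun i g => mem_stab ρ' U hU i g) hηc (by
      intro i u hu h
      obtain ⟨s, rfl⟩ := hmemU u hu
      rw [extU_apply hιinj, ← hη1 i s h, hτ, dchar_apply]) (by
      intro i i' y hii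
      have hcj := hconj y i i' hii
      -- the conjugation by `y` on `GK L`
      have hex : ∀ s : GK L, ∃ s' : GK L, ι s' = y⁻¹ * ι s * y := by
        intro s
        apply hmemU
        have := hU.conj_mem _ (hmem s) y⁻¹
        rwa [inv_inv] at this
      choose c hc using hex
      let cy : GK L →* GK L :=
        { toFun := c
          map_one' := hιinj (by rw [hc, map_one, mul_one, inv_mul_cancel])
          map_mul' := fun s s' => hιinj (by rw [map_mul, hc, hc, hc, map_mul]; group) }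
      have hcy : ∀ s, ι (cy s) = y⁻¹ * ι s * y := hc
      have hemb : IsClosedEmbedding ι := hcι.isClosedEmbedding hιinj
      have hcc : Continuous cy := by
        rw [hemb.isInducing.continuous_iff]
        have h5 : (ι ∘ cy) = fun s => y⁻¹ * ι s * y := funext hcy
        rw [h5]
        exact (continuous_const.mul hcι).mul continuous_const
      have h6 := hom_eq (Ψ (π i')) ((Ψ (π i)).comp cy) (hΨc _) ((hΨc (π i)).comp hcc)
        (M := N * ℓ) (Nat.mul_pos (by omega) hℓp.pos) (by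
        intro w hw s hs
        have hwN : (N : 𝓞 L) ∉ w.asIdeal := fun h => hw (by
          rw [Nat.cast_mul]
          exact w.asIdeal.mul_mem_right _ h)
        have hwℓ : (ℓ : 𝓞 L) ∉ w.asIdeal := fun h => hw (by
          rw [Nat.cast_mul]
          exact w.asIdeal.mul_mem_left _ h)
        obtain ⟨w', s', hs', hss', hab⟩ := (hFXJ K U L ι ε hU hUo hFX).1 w s y hs
        obtain ⟨v, hv⟩ := exists_below (K := K) w
        have hv' := hab v hv
        have hcs : cy s = s' := hιinj (by rw [hcy, hss'])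
        have hwN' : (N : 𝓞 L) ∉ w'.asIdeal := fun h =>
          hwN ((above_nat hv N).1 ((above_nat hv' N).2 h))
        have hwℓ' : (ℓ : 𝓞 L) ∉ w'.asIdeal := fun h =>
          hwℓ ((above_nat hv ℓ).1 ((above_nat hv' ℓ).2 h))
        rw [MonoidHom.comp_apply, hcs, hΨ (π i') w hwN hwℓ s hs, hΨ (π i) w' hwN' hwℓ' s' hs',
          hcj w w' s s' hs hs' hss'])
      intro u hu
      obtain ⟨s, rfl⟩ := hmemU u hu
      rw [extU_apply hιinj, ← hcy s, extU_apply hιinj]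
      have h7 := DFunLike.congr_fun h6 s
      rw [MonoidHom.comp_apply] at h7
      rw [h7])
  refine ⟨π, R, hR1, hR2, ?_⟩
  intro v hvN hvl hvℓ σ hσ m hm α hα
  obtain ⟨z0, hz0, hz0'⟩ := htr (σ ^ m)
  obtain ⟨z, hz, hz'⟩ := hR3 (σ ^ m) (fun i y h =>
    hη2 i v hvN (hnlK v hvl) hvℓ σ hσ y m hm h) z0 hz0
  refine ⟨z, hz, ?_⟩
  rw [hz', hz0']
  have h5 : (S.ρ σ : Matrix (Fin n) (Fin n) S.k).charpoly = ∏ i, (X - Polynomial.C (S.r (α i))) := by
    rw [S.hfr v hvN hvl σ hσ, ← Polynomial.map_map, hα, Polynomial.map_prod]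
    refine Finset.prod_congr rfl fun i _ => ?_
    rw [Polynomial.map_sub, map_X, Polynomial.map_C]
  have h6 := charpoly_pow _ _ h5 m
  have h7 : (S.ρ (σ ^ m) : Matrix (Fin n) (Fin n) S.k) = (S.ρ σ : Matrix (Fin n) (Fin n) S.k) ^ m := by
    rw [map_pow]
    rfl
  rw [h7, Pool.Agent.H139.ZO.ABL.trace_of_cp _ _ h6, map_sum]
  exact Finset.sum_congr rfl fun i _ => by rw [map_pow]

end

end Pool.Agent.H500.ED
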