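import Pool.Agent.H500.ED.Main2

set_option autoImplicit false
set_option linter.unusedSectionVars false

/-!
# Project ED: the assembly, third part (the `ℓ`-adic representations)
-/

namespace Pool.Agent.H500.ED

open NumberField IsDedekindDomain Filter Topology Polynomial
open Pool.Agent.W401.Cheb (GK IsFrob IsInert dens)
open Pool.Agent.H500.HC
open Pool.Agent.H500.MW (PosUD dens_exists posUD_of_not)
open Pool.Agent.H500.R2 (UnrOut SpC fin_range frob_at exists_char)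
open Pool.Agent.H500.SV
open Pool.Agent.H500.TH
open Pool.Agent.H500.ZO (PotHecke SemiS)
open Pool.Agent.H894.TH.TFin (exists_below above_unique above_nat)
open Pool.Agent.H37.SV (charpoly_pow)

/-- power sums determine the polynomial -/
theorem prod_of_sums {F : Type} [Field F] [CharZero F] {n : ℕ} (β γ : Fin n → F)
    (h : ∀ m : ℕ, 0 < m → ∑ i, β i ^ m = ∑ i, γ i ^ m) :
    ∏ i, (X - Polynomial.C (β i)) = ∏ i, (X - Polynomial.C (γ i)) := by
  classical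
  have hp : ∀ p : F[X], ∑ i, p.eval (β i) = ∑ i, p.eval (γ i) := by
    intro p
    have e : ∀ δ : Fin n → F, ∑ i, p.eval (δ i) =
        ∑ m ∈ Finset.range (p.natDegree + 1), p.coeff m * ∑ i, δ i ^ m := by
      intro δ
      simp_rw [eval_eq_sum_range, Finset.mul_sum]
      rw [Finset.sum_comm]
    rw [e, e]
    refine Finset.sum_congr rfl fun m _ => ?_
    rcases Nat.eq_zero_or_pos m with rfl | hm
    · simp
    · rw [h m hm]
  set V : Finset F := Finset.univ.image β ∪ Finset.univ.image γ with hV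
  have hc : ∀ x, (Finset.univ.filter fun i => β i = x).card =
      (Finset.univ.filter fun i => γ i = x).card := by
    intro x
    set p : F[X] := ∏ y ∈ V.erase x, (X - Polynomial.C y) with hpdef
    have hpx : p.eval x ≠ 0 := by
      rw [hpdef, eval_prod, Finset.prod_ne_zero_iff]
      intro y hy
      rw [eval_sub, eval_X, eval_C, sub_ne_zero]
      exact (Finset.ne_of_mem_erase hy).symm
    have hpy : ∀ y ∈ V, y ≠ x → p.eval y = 0 := by
      intro y hy hyx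
      rw [hpdef, eval_prod]
      exact Finset.prod_eq_zero (Finset.mem_erase.2 ⟨hyx, hy⟩) (by simp)
    have e : ∀ δ : Fin n → F, (∀ i, δ i ∈ V) → ∑ i, p.eval (δ i) =
        ((Finset.univ.filter fun i => δ i = x).card : F) * p.eval x := by
      intro δ hδ
      rw [← nsmul_eq_mul, ← Finset.sum_const, Finset.sum_filter]
      refine Finset.sum_congr rfl fun i _ => ?_
      split_ifs with hi
      · rw [hi]
      · exact hpy _ (hδ i) hi
    have h1 := hp p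
    rw [e β fun i => Finset.mem_union_left _ (Finset.mem_image_of_mem _ (Finset.mem_univ i)),
      e γ fun i => Finset.mem_union_right _ (Finset.mem_image_of_mem _ (Finset.mem_univ i))] at h1
    exact_mod_cast mul_right_cancel₀ hpx h1
  have h5 : Finset.univ.val.map β = Finset.univ.val.map γ := by
    ext x
    rw [Multiset.count_map, Multiset.count_map]
    have h6 := hc x
    rw [Finset.card_def, Finset.card_def, Finset.filter_val, Finset.filter_val] at h6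
    simpa only [eq_comm] using h6
  have h6 : Finset.univ.val.map (fun i => (X - Polynomial.C (β i) : F[X])) =
      Finset.univ.val.map (fun i => (X - Polynomial.C (γ i) : F[X])) := by
    have := congrArg (Multiset.map fun a : F => (X - Polynomial.C a : F[X])) h5
    rwa [Multiset.map_map, Multiset.map_map] at this
  exact congrArg Multiset.prod h6

section

variable {K E : Type} [Field K] [NumberField K] [Field E] [NumberField E]

/-- almost no `lam` has a norm contained in `v` -/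
theorem fin_norm (v : HeightOneSpectrum (𝓞 K)) : {lam : HeightOneSpectrum (𝓞 E) |
    ((Ideal.absNorm lam.asIdeal : ℕ) : 𝓞 K) ∈ v.asIdeal}.Finite := by
  refine (Pool.Agent.H500.Kum.fin_mem (E := E)
    (x := ((Ideal.absNorm v.asIdeal : ℕ) : 𝓞 E)) (Nat.cast_ne_zero.2 (norm_ne_zero v))).subset ?_
  intro lam hlam
  obtain ⟨l, f, hl, hlm, hf0, hlf⟩ := exists_char lam
  have hlv : (l : 𝓞 K) ∈ v.asIdeal := by
    have h1 : ((Ideal.absNorm lam.asIdeal : ℕ) : 𝓞 K) ∈ v.asIdeal := hlam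
    rw [hlf, Nat.cast_pow] at h1
    exact v.isPrime.mem_of_pow_mem _ h1
  exact (natCast_mem_iff_dvd hl hlm).2 ((natCast_mem_iff_dvd hl hlv).1 (norm_mem v))

variable {j : E →+* QBar} {N n : ℕ} {P : HeightOneSpectrum (𝓞 K) → (𝓞 E)[X]}
  {U : Subgroup (GK K)} {L : Type} [Field L] [NumberField L] [Algebra K L] {ι : GK L →* GK K}
  {ε : AlgebraicClosure L ≃+* AlgebraicClosure K} {e : ℕ} {t : Fin n → (L →+* QBar) → ℕ}
  {ψ : Fin n → (Ideal (𝓞 L) →*₀ ZBar)}

/-- **the `ℓ`-adic representations** -/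
theorem exists_adic (hETA : S_ETA) (hDIAG : S_DIAG) (hLIFD : S_LIFD) (hRTW : S_RTW)
    (hFXJ : S_FXJ) (hFXC : S_FXC) (hCMP : S_CMP) (hFIN : S_FIN) (hSEM : S_SEM) (hN : 2 ≤ N)
    (H : PotHecke j N n P U L ι e t ψ) (hFX : FX U L ι ε)
    (hpos : PosUD (fun lam => Nonempty (DR j N n P U lam)))
    (ℓ : ℕ) [Fact ℓ.Prime] (κ : QBar →+* PadicAlgCl ℓ) (Ψ : Fin n → (GK L →* (PadicAlgCl ℓ)ˣ))
    (hΨc : ∀ i, Continuous fun s => (Ψ i s : PadicAlgCl ℓ))
    (hΨ : ∀ i, ∀ w : HeightOneSpectrum (𝓞 L), (N : 𝓞 L) ∉ w.asIdeal → (ℓ : 𝓞 L) ∉ w.asIdeal →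
      (∀ τ, IsInert w τ → Ψ i τ = 1) ∧
      ∀ s, IsFrob w s → (Ψ i s : PadicAlgCl ℓ) = κ (ψ i w.asIdeal : ZBar)) :
    ∃ R : GK K →* GL (Fin n) (PadicAlgCl ℓ),
      Continuous (fun g => (R g : Matrix (Fin n) (Fin n) (PadicAlgCl ℓ))) ∧ SemiS R ∧
      (∃ π : Fin n ≃ Fin n, ∀ s : GK L, (R (ι s) : Matrix (Fin n) (Fin n) (PadicAlgCl ℓ)) =
        Matrix.diagonal fun i => (Ψ (π i) s : PadicAlgCl ℓ)) ∧
      ∀ v : HeightOneSpectrum (𝓞 K), (N : 𝓞 K) ∉ v.asIdeal → (ℓ : 𝓞 K) ∉ v.asIdeal →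
        (∀ τ, IsInert v τ → R τ = 1) ∧ ∀ σ, IsFrob v σ →
        (R σ : Matrix (Fin n) (Fin n) (PadicAlgCl ℓ)).charpoly =
          (P v).map ((κ.comp j).comp (algebraMap (𝓞 E) E)) := by
  classical
  have hU := H.normal
  have hUo := H.isOpen
  have hιinj : Function.Injective ι := H.fld.inj
  have hidx : U.index ≠ 0 := by
    rw [← H.fld.deg]
    exact Module.finrank_pos.ne'
  have hFI : U.FiniteIndex := ⟨hidx⟩
  have hmem : ∀ s : GK L, ι s ∈ U := by
    intro s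
    rw [← H.fld.range]
    exact ⟨s, rfl⟩
  -- the good places
  set bad : Set (HeightOneSpectrum (𝓞 E)) := {lam | (N : 𝓞 E) ∈ lam.asIdeal} ∪
    {lam | (U.index : 𝓞 E) ∈ lam.asIdeal} ∪ {lam | (n.factorial : 𝓞 E) ∈ lam.asIdeal} ∪
    BadC j N ι ψ with hbad
  have hbadfin : bad.Finite := by
    refine (((Pool.Agent.H500.Kum.fin_mem (E := E) (x := (N : 𝓞 E)) ?_).union
      (Pool.Agent.H500.Kum.fin_mem (E := E) (x := (U.index : 𝓞 E)) ?_)).union
      (Pool.Agent.H500.Kum.fin_mem (E := E) (x := (n.factorial : 𝓞 E)) ?_)).union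
      (hCMP K E j U L ι ε N n ψ hU hUo hFX hN H.cop)
    · exact Nat.cast_ne_zero.2 (by omega)
    · exact Nat.cast_ne_zero.2 hidx
    · exact Nat.cast_ne_zero.2 (Nat.factorial_ne_zero n)
  set Λ : Set (HeightOneSpectrum (𝓞 E)) := {lam | Nonempty (DR j N n P U lam)} \ bad with hΛ
  have hΛinf : Λ.Infinite := hpos.infinite.sdiff hbadfin
  have hex : ∀ lam : Λ, ∃ (S : DR j N n P U lam.1) (π : Fin n ≃ Fin n)
      (R : GK K →* GL (Fin n) (PadicAlgCl ℓ)),
      Continuous (fun g => (R g : Matrix (Fin n) (Fin n) (PadicAlgCl ℓ))) ∧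
      (∀ u ∈ U, (R u : Matrix (Fin n) (Fin n) (PadicAlgCl ℓ)) =
        Matrix.diagonal fun i => extU ι (fun s => (Ψ (π i) s : PadicAlgCl ℓ)) u) ∧
      ∀ v : HeightOneSpectrum (𝓞 K), (N : 𝓞 K) ∉ v.asIdeal →
        ((Ideal.absNorm lam.1.asIdeal : ℕ) : 𝓞 K) ∉ v.asIdeal → (ℓ : 𝓞 K) ∉ v.asIdeal →
        ∀ σ, IsFrob v σ → ∀ m : ℕ, 0 < m → ∀ α : Fin n → ZBar,
          (P v).map (jz j) = ∏ i, (X - Polynomial.C (α i)) →
          ∃ z : ZBar, (R (σ ^ m) : Matrix (Fin n) (Fin n) (PadicAlgCl ℓ)).trace = κ (z : QBar) ∧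
            S.r z = S.r (∑ i, α i ^ m) := by
    rintro ⟨lam, ⟨S⟩, hlam⟩
    have hb : (((N : 𝓞 E) ∉ lam.asIdeal ∧ (U.index : 𝓞 E) ∉ lam.asIdeal) ∧
        (n.factorial : 𝓞 E) ∉ lam.asIdeal) ∧ lam ∉ BadC j N ι ψ := by
      refine ⟨⟨⟨?_, ?_⟩, ?_⟩, ?_⟩
      · exact fun h => hlam (Or.inl (Or.inl (Or.inl h)))
      · exact fun h => hlam (Or.inl (Or.inl (Or.inr h)))
      · exact fun h => hlam (Or.inl (Or.inr h))
      · exact fun h => hlam (Or.inr h)
    exact ⟨S, one_lam hETA hDIAG hLIFD hRTW hFXJ hFXC hN H hFX ℓ κ Ψ hΨc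
      (fun i w h1 h2 => (hΨ i w h1 h2).2) S hb.1.1.1 hb.1.1.2 hb.1.2 hb.2⟩
  choose S π R hRc hRd hRt using hex
  -- finitely many traces
  set 𝒯 : Set (GK K → PadicAlgCl ℓ) := ⋃ ϖ : Fin n ≃ Fin n, {T | ∃ R : GK K →* GL (Fin n) (PadicAlgCl ℓ),
    (∀ u ∈ U, (R u : Matrix (Fin n) (Fin n) (PadicAlgCl ℓ)) = Matrix.diagonal fun i =>
      extU ι (fun s => (Ψ (ϖ i) s : PadicAlgCl ℓ)) u) ∧
    T = fun g => (R g : Matrix (Fin n) (Fin n) (PadicAlgCl ℓ)).trace} with h𝒯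
  have h𝒯fin : 𝒯.Finite := Set.finite_iUnion fun ϖ =>
    hFIN (GK K) U n (PadicAlgCl ℓ) (fun i => extU ι fun s => (Ψ (ϖ i) s : PadicAlgCl ℓ)) hU hFI
  set T : Λ → (GK K → PadicAlgCl ℓ) := fun lam g =>
    (R lam g : Matrix (Fin n) (Fin n) (PadicAlgCl ℓ)).trace with hT
  have hTmem : ∀ lam, T lam ∈ 𝒯 := fun lam => Set.mem_iUnion.2 ⟨π lam, R lam, hRd lam, rfl⟩
  obtain ⟨T0, hT0⟩ : ∃ T0 : GK K → PadicAlgCl ℓ, {lam : HeightOneSpectrum (𝓞 E) |
      ∃ h : lam ∈ Λ, T ⟨lam, h⟩ = T0}.Infinite := by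
    by_contra hcon
    push Not at hcon
    apply hΛinf
    refine (h𝒯fin.biUnion (t := fun T0 => {lam : HeightOneSpectrum (𝓞 E) |
      ∃ h : lam ∈ Λ, T ⟨lam, h⟩ = T0}) fun T0 _ => hcon T0).subset ?_
    intro lam hlam
    exact Set.mem_biUnion (hTmem ⟨lam, hlam⟩) ⟨hlam, rfl⟩
  obtain ⟨lam0, hlam0, hlam0T⟩ := hT0.nonempty
  set R0 := R ⟨lam0, hlam0⟩ with hR0
  have hR0T : ∀ g, (R0 g : Matrix (Fin n) (Fin n) (PadicAlgCl ℓ)).trace = T0 g := fun g =>
    congrFun hlam0T g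
  have hR0d : ∀ s : GK L, (R0 (ι s) : Matrix (Fin n) (Fin n) (PadicAlgCl ℓ)) =
      Matrix.diagonal fun i => (Ψ (π ⟨lam0, hlam0⟩ i) s : PadicAlgCl ℓ) := by
    intro s
    rw [hR0, hRd ⟨lam0, hlam0⟩ _ (hmem s)]
    congr 1
    funext i
    rw [extU_apply hιinj]
  refine ⟨R0, hRc _, ?_, ⟨π ⟨lam0, hlam0⟩, hR0d⟩, ?_⟩
  · refine hSEM (GK K) U n (PadicAlgCl ℓ) R0 hFI ?_
    intro u hu
    rw [hR0, hRd ⟨lam0, hlam0⟩ u hu]
    exact Matrix.isDiag_diagonal _
  · intro v hvN hvℓ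
    constructor
    · intro τ hτ
      have hτU : τ ∈ U := H.unr v hvN τ hτ
      rw [← H.fld.range] at hτU
      obtain ⟨s, rfl⟩ := hτU
      obtain ⟨w, hw, hws⟩ := H.fld.inert' v s hτ
      have hwN : (N : 𝓞 L) ∉ w.asIdeal := fun h => hvN ((above_nat hw N).2 h)
      have hwℓ : (ℓ : 𝓞 L) ∉ w.asIdeal := fun h => hvℓ ((above_nat hw ℓ).2 h)
      apply Units.ext
      rw [hR0d s]
      show _ = (1 : Matrix (Fin n) (Fin n) (PadicAlgCl ℓ))
      rw [← Matrix.diagonal_one]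
      congr 1
      funext i
      rw [(hΨ _ w hwN hwℓ).1 s hws, Units.val_one]
    · intro σ hσ
      obtain ⟨α, hα⟩ := exists_alpha j (H.monic v hvN).1 (H.monic v hvN).2
      -- the traces
      have htr : ∀ m : ℕ, 0 < m → T0 (σ ^ m) = κ (((∑ i, α i ^ m : ZBar)) : QBar) := by
        intro m hm
        set Λ1 := {lam : HeightOneSpectrum (𝓞 E) | ∃ h : lam ∈ Λ, T ⟨lam, h⟩ = T0} \
          {lam | ((Ideal.absNorm lam.asIdeal : ℕ) : 𝓞 K) ∈ v.asIdeal} with hΛ1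
        have hΛ1inf : Λ1.Infinite := hT0.sdiff (fin_norm v)
        have hz : ∀ lam ∈ Λ1, ∃ (k : Type) (_ : Field k) (r : ZBar →+* k) (z : ZBar),
            RingHom.ker (r.comp (jz j)) = lam.asIdeal ∧ T0 (σ ^ m) = κ (z : QBar) ∧
            r z = r (∑ i, α i ^ m) := by
          rintro lam ⟨⟨hlam, hlamT⟩, hlv⟩
          obtain ⟨z, hz1, hz2⟩ := hRt ⟨lam, hlam⟩ v hvN hlv hvℓ σ hσ m hm α hα
          refine ⟨(S ⟨lam, hlam⟩).k, inferInstance, (S ⟨lam, hlam⟩).r, z,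
            (S ⟨lam, hlam⟩).hker, ?_, hz2⟩
          rw [← hz1, ← hlamT]
        obtain ⟨lam1, hlam1⟩ := hΛ1inf.nonempty
        obtain ⟨k1, _, r1, z1, hk1, hz1, -⟩ := hz lam1 hlam1
        have h5 : z1 - ∑ i, α i ^ m = 0 := by
          refine eq_zero_of_inf j hΛ1inf fun lam hlam => ?_
          obtain ⟨k, _, r, z, hk, hz', hr⟩ := hz lam hlam
          have h6 : z1 = z := by
            apply RingOfIntegers.coe_injective
            exact κ.injective (hz1.symm.trans hz')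
          refine ⟨k, inferInstance, r, hk, ?_⟩
          rw [map_sub, h6, hr, sub_self]
        rw [hz1, sub_eq_zero.1 h5]
      -- the eigenvalues of `R0 σ`
      obtain ⟨β, hβ⟩ : ∃ β : Fin n → PadicAlgCl ℓ,
          (R0 σ : Matrix (Fin n) (Fin n) (PadicAlgCl ℓ)).charpoly =
            ∏ i, (X - Polynomial.C (β i)) := by
        set A := (R0 σ : Matrix (Fin n) (Fin n) (PadicAlgCl ℓ)) with hA
        have h5 := IsAlgClosed.splits A.charpoly
        have h6 := h5.eq_prod_roots_of_monic (Matrix.charpoly_monic A)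
        have h7 : Multiset.card A.charpoly.roots = n := by
          rw [← h5.natDegree_eq_card_roots, Matrix.charpoly_natDegree_eq_dim, Fintype.card_fin]
        obtain ⟨l, hl⟩ := Quot.exists_rep A.charpoly.roots
        have hl' : (l : Multiset (PadicAlgCl ℓ)) = A.charpoly.roots := hl
        have hlen : l.length = n := by
          rw [← Multiset.coe_card, hl', h7]
        subst hlen
        refine ⟨fun i => l.get i, ?_⟩
        rw [h6, ← hl', Multiset.map_coe, Multiset.prod_coe]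
        rw [← List.prod_ofFn]
        congr 1
        conv_lhs => rw [← List.ofFn_get l]
        rw [List.map_ofFn]
        rfl
      have h8 : ∀ m : ℕ, 0 < m → ∑ i, β i ^ m = ∑ i, (κ (α i : QBar)) ^ m := by
        intro m hm
        have h9 := charpoly_pow _ _ hβ m
        have h10 := Pool.Agent.H139.ZO.ABL.trace_of_cp _ _ h9
        have h11 : (R0 (σ ^ m) : Matrix (Fin n) (Fin n) (PadicAlgCl ℓ)) =
            (R0 σ : Matrix (Fin n) (Fin n) (PadicAlgCl ℓ)) ^ m := by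
          rw [map_pow]
          rfl
        rw [← h10, ← h11, hR0T, htr m hm]
        simp only [map_sum, map_pow]
      rw [hβ, prod_of_sums β _ h8]
      have h12 : (P v).map ((κ.comp j).comp (algebraMap (𝓞 E) E)) =
          ((P v).map (jz j)).map (κ.comp (algebraMap ZBar QBar)) := by
        rw [Polynomial.map_map]
        rfl
      rw [h12, hα, Polynomial.map_prod]
      refine Finset.prod_congr rfl fun i _ => ?_
      rw [Polynomial.map_sub, map_X, Polynomial.map_C]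
      rfl

/-- **Existence of the `ℓ`-adic representations** -/
theorem main_of (hFXE : S_FXE) (hFXF : S_FXF) (hAVA : S_AVA) (hETA : S_ETA) (hDIAG : S_DIAG)
    (hLIFD : S_LIFD) (hRTW : S_RTW)
    (hFXJ : S_FXJ) (hFXC : S_FXC) (hCMP : S_CMP) (hFIN : S_FIN) (hSEM : S_SEM) (j : E →+* QBar)
    (N n : ℕ) (hN : 2 ≤ N) (P : HeightOneSpectrum (𝓞 K) → (𝓞 E)[X])
    (hP : PosUD (SolRes N n P)) :
    ∃ (U : Subgroup (GK K)) (L : Type) (_ : Field L) (_ : NumberField L) (_ : Algebra K L)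
      (ι : GK L →* GK K) (e : ℕ) (t : Fin n → (L →+* QBar) → ℕ)
      (ψ : Fin n → (Ideal (𝓞 L) →*₀ ZBar)), PotHecke j N n P U L ι e t ψ ∧
      ∀ (ℓ : ℕ) [Fact ℓ.Prime] (κ : QBar →+* PadicAlgCl ℓ),
      ∃ R : GK K →* GL (Fin n) (PadicAlgCl ℓ),
        Continuous (fun g => (R g : Matrix (Fin n) (Fin n) (PadicAlgCl ℓ))) ∧ SemiS R ∧
        (∀ s : GK L, (R (ι s) : Matrix (Fin n) (Fin n) (PadicAlgCl ℓ)).IsDiag) ∧
        ∀ v : HeightOneSpectrum (𝓞 K), (N : 𝓞 K) ∉ v.asIdeal → (ℓ : 𝓞 K) ∉ v.asIdeal →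
          (∀ τ, IsInert v τ → R τ = 1) ∧ ∀ σ, IsFrob v σ →
          (R σ : Matrix (Fin n) (Fin n) (PadicAlgCl ℓ)).charpoly =
            (P v).map ((κ.comp j).comp (algebraMap (𝓞 E) E)) := by
  obtain ⟨U, L, _, _, _, ι, ε, e, t, ψ, H, hFX, hpos⟩ := sol_ed hFXE hFXF j N n hN P hP
  refine ⟨U, L, inferInstance, inferInstance, inferInstance, ι, e, t, ψ, H, ?_⟩
  intro ℓ _ κ
  have hHecke : ∀ i, IsHecke (N ^ (e + 1)) N (t i) (ψ i) := fun i =>
    { cop := H.cop i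
      typ := fun x hx => H.typ i x (InRay.mono (pow_dvd_pow N (Nat.le_succ e)) hx) }
  have h1 := fun i => hAVA L (N ^ (e + 1)) N (t i) (ψ i) (pow_pos (by omega) _)
    (dvd_pow_self N (Nat.succ_ne_zero e)) (hHecke i) ℓ κ
  choose Ψ hΨc hΨ using h1
  have hpow : ∀ w : HeightOneSpectrum (𝓞 L), (N : 𝓞 L) ∉ w.asIdeal →
      ((N ^ (e + 1) : ℕ) : 𝓞 L) ∉ w.asIdeal := by
    intro w hw h
    rw [Nat.cast_pow] at h
    exact hw (w.isPrime.mem_of_pow_mem _ h)
  obtain ⟨R, hR1, hR2, ⟨π, hR3⟩, hR4⟩ := exists_adic hETA hDIAG hLIFD hRTW hFXJ hFXC hCMP hFIN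
    hSEM hN H hFX hpos ℓ κ Ψ hΨc (fun i w hw hwℓ => hΨ i w (hpow w hw) hwℓ)
  refine ⟨R, hR1, hR2, ?_, hR4⟩
  intro s
  rw [hR3 s]
  exact Matrix.isDiag_diagonal _

end

end Pool.Agent.H500.ED
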