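import Pool.Agent.H500.ZO.Stm
import Pool.Graph.R_pool_sql_team_seeded_3997aac3.Q20.EX.Stm

set_option autoImplicit false
set_option linter.unusedSectionVars false

/-!
# Project ED (helper500): existence of `ℓ-adic` representations from solvable residual images

## The theorem

`K`, `E` number fields, `j : E → ℚ̄`, `P v ∈ 𝓞_E[X]` (`v ∤ N` places of `K`).  Suppose that the set of the
places `lam` of `E` which have a residual representation of `G_K` with SOLVABLE image attached to `P` does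
not have density zero.  Then for ALL primes `ℓ` and `ι : ℚ̄ → ℚ̄_ℓ` there is a continuous semisimple
`ρ : G_K → GL_n(ℚ̄_ℓ)`, unramified outside `N ℓ`, with Frobenius polynomials `ι(P v)`.

## Plan

Known (`Pool.Agent.H500.TH.solP`): there is an open normal subgroup `U` of `G_K`, with field `L`, and algebraic
Hecke characters `ψ_i` of `L` such that for a set `Λ'` of `lam` of positive upper density the residual
representation `ρ_lam` is diagonal on `U`, with entries the reductions of the `ψ_i`.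
1. Parts A, B: class field theory: the `ℓ`-adic characters `Ψ` of `G_L` attached to Hecke characters.
2. Fix `lam ∈ Λ'` of large characteristic `l`.  The image of `ρ_lam` has order prime to `l`; lift it to
   `ρ' : G_K → GL_n(ℚ̄)` (`LIFT`), with `ρ' = ⊕ τ_i` on `U` (Teichmüller lifts).  `ψ_i / τ_i` extends to a Hecke
   character of the field `M` of the stabilizer `H` of `τ_i` with values `≡ 1` modulo `lam` (unique
   roots `≡ 1`: `ROOT`, `ETA`), with `ℓ`-adic characters `η_i`.  Twist `ρ'` by the `η_i` on the isotypic parts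
   (`RTW`): a representation `R` over `ℚ̄_ℓ` with `R = ⊕ Ψ_i` on `U` and Frobenius traces `≡` those of `ρ_lam` modulo `lam`.
3. Finitely many possibilities for the trace of `R` (`FIN`): one of them for infinitely many `lam`.
-/

namespace Pool.Agent.H500.ED

open NumberField IsDedekindDomain Filter Topology Polynomial
open Pool.Agent.W401.Cheb (GK IsFrob IsInert dens)
open Pool.Agent.H500.HC (InRay QBar ZBar jz IsRayChar)
open Pool.Agent.H500.R2 (UnrOut)
open Pool.Agent.H500.SV (Above Fld)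
open Pool.Agent.H500.TH (typB)
open Pool.Agent.Q92.AR (Dv Ray prin Pr art Ram)

/-! ## Part A: class field theory (the conductor) -/

/-- PART A1 (ramification of Artin characters, tame part).  `χ` is a ray class character modulo `A`, equal to
the Artin character of `ψ` on the divisors prime to `N'`; `v ∤ A n`, `ψ^n = 1`.  Then `ψ` is unramified at `v`.
Library (project EX, `Pool/Graph/R_pool_sql_team_seeded_3997aac3/Q20/EX/Stm.lean`, `Stm2.lean`; proofs listed in
`…/Q20/EX/All.lean`, `…/Q5/SG/Stm2.lean`, `…/Q53/EX`): `S_NRM`, `S_TRIV`, `S_TRV2`, `S_SPL`, `S_RES`, `S_NCG`, `S_GOOD`, and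
`S_UNR` (`Pool.Agent.Q53.EX.unr`): a character with trivial local components everywhere is unramified.
Proof.  Replace `M` by the fixed field of `ker ψ` (`S_IJ` of `Q5/SG/Stm2.lean`): `ψ` injective, `Gal(M/K)` cyclic of
order `d ∣ n`.  `F' = K(μ_d)` is unramified over `K` at `v`.  `M F' = F'(b^(1/d))` (Kummer).  Choose `a ∈ F'ˣ` (approximation)
with `a / b` very near `1` at all places of `F'` dividing `A n N'` but not above `v`, and `a` very near `1` at the
places above `v`.  `F1 = F'(a^(1/d))`: the places above `v` split completely in `F1 / F'` (`S_SPL`).  Let `θ` be the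
restriction of `ψ` to `Gal(M F1 / F1)`; `M F1 = F1((b/a)^(1/d))`, so the places of `F1` above the places dividing
`A n N'` not above `v` split completely in `M F1`: `θ` is unramified there, the local components are trivial
(`S_TRIV`).  At the places above `v` the local components of `χ ∘ norm` are trivial since `v ∤ A`.  So all the
local components of `θ` are trivial, and `θ` is unramified (`S_UNR`).  As `F1 / K` is unramified at (all places
above) `v`, the inertia groups above `v` of `Gal(M F1 / K)` are contained in `Gal(M F1 / F1)`, and `ψ` is unramified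
at `v` (`S_IG`). -/
def S_CNDA : Prop := ∀ (K M : Type) [Field K] [NumberField K] [Field M] [NumberField M] [Algebra K M]
  [IsGalois K M] (ψ : (M ≃ₐ[K] M) →* ℂˣ) (N' A n : ℕ) (χ : Dv K →+ Additive ℂˣ), N' ≠ 0 → A ≠ 0 →
  0 < n → Ram K M N' → (∀ D ∈ Pr K N', art ψ D = χ D) → (∀ x ∈ Ray K A, χ (prin x) = 0) →
  (∀ g, ψ g ^ n = 1) → ∀ v : HeightOneSpectrum (𝓞 K), (A : 𝓞 K) ∉ v.asIdeal →
  (n : 𝓞 K) ∉ v.asIdeal → ∀ (w : HeightOneSpectrum (𝓞 M)) (g : M ≃ₐ[K] M), w.under (𝓞 K) = v →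
    (∀ x : 𝓞 M, w.valuation M (g (x : M) - (x : M)) < 1) → ψ g = 1

/-- PART A2 (ramification of Artin characters, `p`-part at a place above `p`).  As A1, `ψ^(p^a) = 1`, `p ∈ v`.
Proof (a variant of the job `S_BS` with `S_LK`, `S_NP`, `S_IG` in `…3997aac3/Q5/SG/Stm2.lean`, proved in the library).
As `A ∉ v`, the prime `p` does not divide `A`.  `ψ` may be assumed injective.  `n = p^a`.  Let `y ∈ 𝓞 K` with
`y ∈ u`, `y ∉ u²` for all `u ∣ A` and `y` very near `1` at `v`; `L = K(r)`, `r^n = y` (Eisenstein; `L = K` if `A = 1` or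
`n = 1`, then use `S_UNR` directly): all `u ∣ A` are totally ramified in `L`, and there is a place `w` of `L` above `v`
with `r ≡ 1`, unramified (even completely split) over `v` (Hensel).  The norm to `K` of a unit `x` at the place above
`u ∣ A` is `≡ x0^n` modulo `u` (`S_NP`), and the local component of `χ` at `u` is trivial on the `1`-units (it has
`p`-power order and `p ∉ u`) and on `n`-th powers.  So the Artin character of the restriction of `ψ` to
`Gal(M L / L)` has trivial local components everywhere: unramified by `S_UNR`.  So `ψ` is unramified at `v` by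
`S_IG`. -/
def S_CNDB : Prop := ∀ (K M : Type) [Field K] [NumberField K] [Field M] [NumberField M] [Algebra K M]
  [IsGalois K M] (ψ : (M ≃ₐ[K] M) →* ℂˣ) (N' A p a : ℕ) (χ : Dv K →+ Additive ℂˣ), N' ≠ 0 → A ≠ 0 →
  p.Prime → Ram K M N' → (∀ D ∈ Pr K N', art ψ D = χ D) → (∀ x ∈ Ray K A, χ (prin x) = 0) →
  (∀ g, ψ g ^ p ^ a = 1) → ∀ v : HeightOneSpectrum (𝓞 K), (A : 𝓞 K) ∉ v.asIdeal →
  (p : 𝓞 K) ∈ v.asIdeal → ∀ (w : HeightOneSpectrum (𝓞 M)) (g : M ≃ₐ[K] M), w.under (𝓞 K) = v →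
    (∀ x : 𝓞 M, w.valuation M (g (x : M) - (x : M)) < 1) → ψ g = 1

/-- PART A3 (Galois characters of ray class characters, exact conductor).  To be proved:
`S_CNDA → S_CNDB → S_CND`.
Proof.  `Pool.Agent.Q20.EX.all_EXI` gives `M`, `ψ`, `N'`.  For `v ∤ A` above `p` write `n = p^a m` (`n` the order of `ψ`),
`c₁ + c₂ = 1` with `p^a ∣ c₁`, `m ∣ c₂`: `ψ^{c₁}` (with `c₁ • χ`) is unramified at `v` by A1, `ψ^{c₂}` by A2.  So `ψ` is
unramified at all `v ∤ A`; replace `M` by the fixed field of `ker ψ`, which is unramified outside `A`.  For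
`v ∤ A`: `ψ(frob v) = χ(v)`: clear if `v ∤ N'`; in general there is `x ≡ 1 mod A^big`, totally positive, with
`v - prin x` prime to `N'` (approximation), and both `χ` and `art ψ` kill `prin x` (for `art ψ`: it kills a ray modulo some
`N''`, and has trivial local components at the places not dividing `A`, `S_TRIV` / `S_GOOD`).  Then `θ` is the
composition `GK K → Gal(M/K) → ℂˣ` (compare `Pool/Agent/H17/ZO/ARTa.lean`). -/
def S_CND : Prop := ∀ (K : Type) [Field K] [NumberField K] (A : ℕ), 0 < A →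
  ∀ χ : Dv K →+ Additive ℂˣ, (∀ x ∈ Ray K A, χ (prin x) = 0) →
  ∃ θ : GK K →* ℂˣ, IsOpen (θ.ker : Set (GK K)) ∧ UnrOut A θ.ker ∧
    ∀ v : HeightOneSpectrum (𝓞 K), (A : 𝓞 K) ∉ v.asIdeal → ∀ s, IsFrob v s →
      Additive.ofMul (θ s) = χ (Finsupp.single v 1)

/-! ## Part B: `ℓ`-adic characters of Hecke characters -/

/-- PART B1 (finite abelian groups).  To be proved: `S_CND → S_FLB`.
Proof.  For every character `κ : B → ℂˣ` (finitely many, they separate the elements of `B`) `S_CND` for `κ ∘ c` gives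
`θ_κ`.  For `g ∈ GK K` there is by Chebotarev (`Pool.Agent.W528.Ord.chebK`) a place `v ∤ A` with a Frobenius element
conjugate to an element of `g ⋂ ker θ_κ`; `Θ g = c(v)`: the unique `b ∈ B` with `κ(b) = θ_κ(g)` for all `κ`. -/
def S_FLB : Prop := ∀ (K : Type) [Field K] [NumberField K] (A : ℕ), 0 < A →
  ∀ (B : Type) [CommGroup B] [Finite B] (c : Dv K →+ Additive B),
  (∀ x ∈ Ray K A, c (prin x) = 0) →
  ∃ Θ : GK K →* B, IsOpen (Θ.ker : Set (GK K)) ∧ UnrOut A Θ.ker ∧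
    ∀ v : HeightOneSpectrum (𝓞 K), (A : 𝓞 K) ∉ v.asIdeal → ∀ s, IsFrob v s →
      Additive.ofMul (Θ s) = c (Finsupp.single v 1)

/-- `ψ` is an algebraic Hecke character of type `t` with modulus `A`, zero at the ideals not prime to `B` -/
structure IsHecke {K : Type} [Field K] [NumberField K] (A B : ℕ) (t : (K →+* QBar) → ℕ)
    (ψ : Ideal (𝓞 K) →*₀ ZBar) : Prop where
  cop : ∀ 𝔞 : Ideal (𝓞 K), 𝔞 ≠ ⊥ → (ψ 𝔞 ≠ 0 ↔ IsCoprime 𝔞 (Ideal.span {(B : 𝓞 K)}))
  typ : ∀ x : 𝓞 K, InRay A x → ψ (Ideal.span {x}) = typB t x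

/-- PART B2 (the values are in a number field).
Proof.  Finitely many ideals represent all classes of ideals prime to `B` modulo `InRay A` (`Pool.Agent.H199.HC.Cls`):
`𝔞 (x) = 𝔟_i (y)`; `ψ 𝔞 = ψ 𝔟_i typB t y / typB t x`.  `F` = the subfield of `QBar` generated by the `ψ 𝔟_i` and all the
conjugates of `K` (compare `S_Emb`: `Pool/Agent/H415/SV/Emb.lean`). -/
def S_VAL : Prop := ∀ (K : Type) [Field K] [NumberField K] (A B : ℕ) (t : (K →+* QBar) → ℕ)
  (ψ : Ideal (𝓞 K) →*₀ ZBar), 0 < A → B ∣ A → IsHecke A B t ψ →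
  ∃ (F : Type) (_ : Field F) (_ : NumberField F) (j : F →+* QBar), ∀ 𝔞, ∃ x : 𝓞 F, jz j x = ψ 𝔞

/-- PART B3 (the `ℓ`-adic character of a Hecke character).  To be proved: `S_FLB → S_VAL → S_AVA`.
Proof.  `F`, `j` from `S_VAL`.  For `m ≥ 1` let `B_m = (𝓞 F / ℓ^m)ˣ` (finite) and `c_m : Dv K →+ Additive B_m`, `v ↦ ψ(v) mod ℓ^m` for
`v ∤ A ℓ` (a unit modulo `ℓ`: a power of `v` is `(x)`, `x` in the ray, and `ψ(x) = typB t x` is prime to `ℓ`), `v ↦ 0` for the
others.  It kills `Ray K (A ℓ^m)`: `x = y / z`, `y, z ∈ 𝓞 K` in the ray, `typB t y ≡ typB t z ≡ 1 mod ℓ^m`.  `S_FLB` gives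
`Θ_m : GK K → B_m`; the `Θ_m` are compatible (Chebotarev, Frobenius elements).  For `g ∈ GK K` the lifts `a_m ∈ 𝓞 F` of
`Θ_m g` give a Cauchy sequence `ι (j a_m)` in the finite dimensional `ℚ_ℓ`-subspace of `PadicAlgCl ℓ` spanned by
`ι (j F)`, which is complete; `Ψ g` is its limit; `‖Ψ g - ι (j a_m)‖ ≤ ℓ^(-m)` up to a constant (elements of `𝓞 F`
have norm `≤ 1`).  For Frobenius elements the sequence is constant. -/
def S_AVA : Prop := ∀ (K : Type) [Field K] [NumberField K] (A B : ℕ) (t : (K →+* QBar) → ℕ)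
  (ψ : Ideal (𝓞 K) →*₀ ZBar), 0 < A → B ∣ A → IsHecke A B t ψ →
  ∀ (ℓ : ℕ) [Fact ℓ.Prime] (ι : QBar →+* PadicAlgCl ℓ), ∃ Ψ : GK K →* (PadicAlgCl ℓ)ˣ,
  Continuous (fun g => (Ψ g : PadicAlgCl ℓ)) ∧
  ∀ v : HeightOneSpectrum (𝓞 K), (A : 𝓞 K) ∉ v.asIdeal → (ℓ : 𝓞 K) ∉ v.asIdeal →
    (∀ τ, IsInert v τ → Ψ τ = 1) ∧ ∀ s, IsFrob v s → (Ψ s : PadicAlgCl ℓ) = ι (ψ v.asIdeal : ZBar)

/-! ## Part C: fields of open subgroups -/

section
variable {K : Type} [Field K] [NumberField K]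

/-- `M` is the field of the subgroup `H`, with a compatible isomorphism `e` of the algebraic closures -/
structure FX (H : Subgroup (GK K)) (M : Type) [Field M] [NumberField M] [Algebra K M]
    (ι : GK M →* GK K) (e : AlgebraicClosure M ≃+* AlgebraicClosure K) : Prop where
  base : ∀ x : K, e (algebraMap M (AlgebraicClosure M) (algebraMap K M x)) =
    algebraMap K (AlgebraicClosure K) x
  mem : ∀ g : GK K, g ∈ H ↔ ∀ x : M, g (e (algebraMap M (AlgebraicClosure M) x)) =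
    e (algebraMap M (AlgebraicClosure M) x)
  act : ∀ (s : GK M) (x : AlgebraicClosure M), ι s (e x) = e (s x)

end

/-- PART C1 (existence).  Proof: `M` the fixed field of `H` in `AlgebraicClosure K`: see
`Pool/Agent/H967/SV/Fld.lean` (`io e`), which does not need `H` normal for this. -/
def S_FXE : Prop := ∀ (K : Type) [Field K] [NumberField K] (H : Subgroup (GK K)),
  IsOpen (H : Set (GK K)) → ∃ (M : Type) (_ : Field M) (_ : NumberField M) (_ : Algebra K M)
    (ι : GK M →* GK K) (e : AlgebraicClosure M ≃+* AlgebraicClosure K), FX H M ι e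

/-- PART C2 (normal subgroups).  Adapt `Pool/Agent/H967/SV/Fld.lean`. -/
def S_FXF : Prop := ∀ (K : Type) [Field K] [NumberField K] (U : Subgroup (GK K)) (L : Type) [Field L]
  [NumberField L] [Algebra K L] (ι : GK L →* GK K)
  (e : AlgebraicClosure L ≃+* AlgebraicClosure K), U.Normal → IsOpen (U : Set (GK K)) →
  FX U L ι e → Fld U L ι

/-- PART C3 (topology, inertia and Frobenius elements; `H` need not be normal).
Proof.  `e` maps the maximal ideals of the integers of `AlgebraicClosure M` above `u` to the maximal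
ideals above `v`.  Last part: let `σ` be Frobenius at `v` for `Q`, `Q' = y⁻¹ Q`, `u` the place of `M` below `Q'` (via `e`),
with residue field of `q^f` elements.  `g = y⁻¹ σ^k y` acts as `x ↦ x^(q^k)` modulo `Q'` and trivially on `M`, so
`x^(q^k) = x` in the residue field of `u`, `f ∣ k`, `k = f a`; let `s` be a Frobenius element at `u` for the same ideal
(exists: see `H967/SV/Fld.lean`): `(s^a)⁻¹ g` is an inertia element. -/
def S_FXC : Prop := ∀ (K : Type) [Field K] [NumberField K] (H : Subgroup (GK K)) (M : Type) [Field M]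
  [NumberField M] [Algebra K M] (ι : GK M →* GK K)
  (e : AlgebraicClosure M ≃+* AlgebraicClosure K), IsOpen (H : Set (GK K)) → FX H M ι e →
  Function.Injective ι ∧ ι.range = H ∧ Continuous ι ∧
  (∀ V : Subgroup (GK M), IsOpen (V : Set (GK M)) →
    IsOpen ((V.map ι : Subgroup (GK K)) : Set (GK K))) ∧
  (∀ (v : HeightOneSpectrum (𝓞 K)) (u : HeightOneSpectrum (𝓞 M)), Above u v →
    ∀ s, IsInert u s → IsInert v (ι s)) ∧
  (∀ (v : HeightOneSpectrum (𝓞 K)) (u : HeightOneSpectrum (𝓞 M)), Above u v →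
    ∃ f : ℕ, 0 < f ∧ Ideal.absNorm u.asIdeal = Ideal.absNorm v.asIdeal ^ f ∧
    ∀ s, IsFrob u s → ∃ σ τ, IsFrob v σ ∧ IsInert v τ ∧ ι s = σ ^ f * τ) ∧
  ∀ (v : HeightOneSpectrum (𝓞 K)) (σ : GK K), IsFrob v σ → ∀ (y : GK K) (k : ℕ), 0 < k →
    y⁻¹ * σ ^ k * y ∈ H → ∃ (u : HeightOneSpectrum (𝓞 M)) (s τ : GK M) (a : ℕ), Above u v ∧
      IsFrob u s ∧ IsInert u τ ∧ 0 < a ∧ y⁻¹ * σ ^ k * y = ι (s ^ a * τ)

/-- PART C4 (towers).
Proof.  `eM⁻¹ eL` maps `L` onto a field containing `M` (`U ≤ H`, Galois theory: `eM(M)` is the fixed field of `H`, which is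
contained in `eL(L)`, the fixed field of `U`). -/
def S_TOW : Prop := ∀ (K : Type) [Field K] [NumberField K] (U H : Subgroup (GK K))
  (L : Type) [Field L] [NumberField L] [Algebra K L] (ιL : GK L →* GK K)
  (eL : AlgebraicClosure L ≃+* AlgebraicClosure K) (M : Type) [Field M] [NumberField M]
  [Algebra K M] (ιM : GK M →* GK K) (eM : AlgebraicClosure M ≃+* AlgebraicClosure K),
  IsOpen (U : Set (GK K)) → IsOpen (H : Set (GK K)) → U ≤ H → FX U L ιL eL → FX H M ιM eM →
  ∃ (_ : Algebra M L) (ι' : GK L →* GK M),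
    (∀ x : K, algebraMap M L (algebraMap K M x) = algebraMap K L x) ∧
    (∀ x : M, eL (algebraMap L (AlgebraicClosure L) (algebraMap M L x)) =
      eM (algebraMap M (AlgebraicClosure M) x)) ∧
    FX (U.comap ιM) L ι' (eL.trans eM.symm) ∧ ∀ s, ιM (ι' s) = ιL s

/-- PART C5 (conjugate places).
Proof.  (1) If `s` is Frobenius at `w` for the ideal `Q'` then `y⁻¹ (ι s) y` is Frobenius for `y⁻¹ e(Q')`.  (2) The ideals
above `v` are conjugate under `GK K`. -/
def S_FXJ : Prop := ∀ (K : Type) [Field K] [NumberField K] (U : Subgroup (GK K)) (L : Type) [Field L]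
  [NumberField L] [Algebra K L] (ι : GK L →* GK K)
  (e : AlgebraicClosure L ≃+* AlgebraicClosure K), U.Normal → IsOpen (U : Set (GK K)) →
  FX U L ι e →
  (∀ (w : HeightOneSpectrum (𝓞 L)) (s : GK L) (y : GK K), IsFrob w s →
    ∃ (w' : HeightOneSpectrum (𝓞 L)) (s' : GK L), IsFrob w' s' ∧ ι s' = y⁻¹ * ι s * y ∧
      ∀ v : HeightOneSpectrum (𝓞 K), Above w v → Above w' v) ∧
  ∀ (v : HeightOneSpectrum (𝓞 K)) (w w' : HeightOneSpectrum (𝓞 L)), Above w v → Above w' v →
    ∃ (s s' : GK L) (y : GK K), IsFrob w s ∧ IsFrob w' s' ∧ ι s' = y⁻¹ * ι s * y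

/-! ## Part D: Hecke characters over subfields -/

/-- PART D1 (invariant types).
Proof.  For `g ∈ Gal(L/M)`: `ψ((g x)) = ψ((x))` for all `x` (factorization into prime ideals), so `typB t (g x) = typB t x` for
`x` in the ray modulo `A`.  So `t (σ g) = t σ`: take an `x` in the ray whose conjugates are multiplicatively
independent, e.g. `(x)` a power of a prime ideal of degree one which is totally split over `ℚ`, `x` in the ray, and
look at the factorization in the Galois closure (compare `Pool/Agent/H71/HC/Crt.lean`, `Pool/Agent/H34/TH/TInt.lean`).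
`t' s` = the common value of `t σ` for the `σ` extending `s`. -/
def S_TINV : Prop := ∀ (M L : Type) [Field M] [NumberField M] [Field L] [NumberField L] [Algebra M L],
  IsGalois M L → ∀ (A B : ℕ) (t : (L →+* QBar) → ℕ) (ψ : Ideal (𝓞 L) →*₀ ZBar), 0 < A → B ∣ A →
  IsHecke A B t ψ →
  (∀ (u : HeightOneSpectrum (𝓞 M)) (w w' : HeightOneSpectrum (𝓞 L)), Above w u → Above w' u →
    ψ w.asIdeal = ψ w'.asIdeal) →
  ∃ t' : (M →+* QBar) → ℕ, ∀ σ : L →+* QBar, t σ = t' (σ.comp (algebraMap M L))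

/-- PART D2 (roots of Hecke characters).
Proof.  `d = [L : M]`.  `κ` = the image of `r`, an algebraic closure of `𝔽_l`.  Let `𝔞` be an ideal of `M` prime to `N l` and
`c = ψ(𝔞 𝓞_L)`; `r c ≠ 0` (a power of `𝔞` is `(x)`, `x` in the ray, `r(typB t x) ≠ 0` as `x` is prime to `l`).  There is a unique
root of unity `ζ` of order prime to `l` with `r ζ = r c` (Teichmüller), and a unique `y ∈ ZBar` with `y^d ζ = c`, `r y = 1`:
existence: the roots `y` of `y^d = c ζ⁻¹` satisfy `(r y)^d = 1`, multiply by a `d`-th root of unity; uniqueness: two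
differ by a `d`-th root of unity which is `≡ 1`, and `l ∤ d`.  `η 𝔞 = y`, multiplicative by uniqueness; `η 𝔞 = 0` if
`𝔞` is not prime to `N l`.  For `a ∈ 𝓞 M` in the ray modulo `N^(e+1) l`: `c = typB t a = (typB t' a)^d` (each embedding of `M`
extends to `d` embeddings of `L`), `r c = 1` since `a ≡ 1 mod l`, `ζ = 1`, and `r(typB t' a) = 1`: `η (a) = typB t' a`. -/
def S_ROOT : Prop := ∀ (M L : Type) [Field M] [NumberField M] [Field L] [NumberField L] [Algebra M L]
  (N e l : ℕ) (t : (L →+* QBar) → ℕ) (t' : (M →+* QBar) → ℕ) (ψ : Ideal (𝓞 L) →*₀ ZBar)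
  (k : Type) [Field k] (r : ZBar →+* k), 2 ≤ N → l.Prime → l.Coprime N → (l : k) = 0 →
  ¬ l ∣ Module.finrank M L → IsHecke (N ^ e) N t ψ →
  (∀ σ : L →+* QBar, t σ = t' (σ.comp (algebraMap M L))) →
  ∃ η : Ideal (𝓞 M) →*₀ ZBar, IsHecke (N ^ (e + 1) * l) (N * l) t' η ∧
    ∀ 𝔞 : Ideal (𝓞 M), IsCoprime 𝔞 (Ideal.span {((N * l : ℕ) : 𝓞 M)}) → r (η 𝔞) = 1 ∧
      ∃ (ζ : ZBar) (m : ℕ), 0 < m ∧ ¬ l ∣ m ∧ ζ ^ m = 1 ∧
        η 𝔞 ^ Module.finrank M L * ζ = ψ (𝔞.map (algebraMap (𝓞 M) (𝓞 L)))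

/-- PART D3 (the characters `η`).  To be proved:
`S_FXE → S_FXF → S_FXC → S_TOW → S_FXJ → S_TINV → S_ROOT → S_AVA → S_ETA`.
Proof.  `M`, `ιM`, `eM` the field of `H` (`S_FXE`); `S_TOW`: `L` over `M`, `U' = U.comap ιM` normal in `GK M`, so `L/M` is Galois of
degree `d = [H : U]`, which divides the index of `U` (`S_FXF` for `M`).  If `w`, `w'` are above the same place of `M`, `S_FXJ`
(for `M`, `U'`) and the hypothesis on `H` give `ψ w = ψ w'`.  `t'` from `S_TINV`, `η₀` from `S_ROOT`, its `ℓ`-adic character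
`η₁ : GK M → …` from `S_AVA`; `η h = η₁ (ιM⁻¹ h)`, continuous as `ιM` is a homeomorphism onto `H`.
(1) `η (ιL s) ι(τ s) = Ψ s`: both sides are continuous in `s ∈ GK L`; by Chebotarev it is enough to take `s` Frobenius
at `w`, `w ∤ N l ℓ` (Frobenius elements at such places are dense up to conjugation, and both sides are invariant
under conjugation).  Let `u` be the place of `M` below, `ι' s = s_u^f τ_u` (`S_FXC` for `M`), so `η (ιL s) = ι(z)`,
`z = η₀(u)^f`.  `u 𝓞_L = ∏ w'^e'`, `f e' g = d`, so `ψ(u 𝓞_L)^f = ψ(w)^d`: `z^d ζ' = ψ(w)^d` with a root of unity `ζ'` of order prime to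
`l`, `r z = 1`.  Let `τ s = z₁`: `r ζ' = r(ψ w)^d = r(z₁)^d`, so `ζ' = z₁^d`, `(z z₁)^d = ψ(w)^d`, and `r(z z₁) = r(ψ w) ≠ 0`,
`l ∤ d`: `z z₁ = ψ w`.
(2) `y⁻¹ σ^k y = ιM (s^a τ')`, `s` Frobenius at `u` above `v` (`S_FXC`): `η = ι(η₀(u)^a)`, `r = 1`. -/
def S_ETA : Prop := ∀ (K : Type) [Field K] [NumberField K] (U H : Subgroup (GK K))
  (L : Type) [Field L] [NumberField L] [Algebra K L] (ιL : GK L →* GK K)
  (eL : AlgebraicClosure L ≃+* AlgebraicClosure K) (N e l : ℕ) (t : (L →+* QBar) → ℕ)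
  (ψ : Ideal (𝓞 L) →*₀ ZBar) (k : Type) [Field k] (r : ZBar →+* k) (τ : GK L →* QBarˣ)
  (ℓ : ℕ) [Fact ℓ.Prime] (ι : QBar →+* PadicAlgCl ℓ) (Ψ : GK L →* (PadicAlgCl ℓ)ˣ),
  U.Normal → IsOpen (U : Set (GK K)) → U ≤ H → FX U L ιL eL → 2 ≤ N → l.Prime → l.Coprime N →
  ¬ l ∣ U.index → (l : k) = 0 → IsHecke (N ^ e) N t ψ →
  (∀ y ∈ H, ∀ (w w' : HeightOneSpectrum (𝓞 L)) (s s' : GK L), IsFrob w s → IsFrob w' s' →
    ιL s' = y⁻¹ * ιL s * y → ψ w.asIdeal = ψ w'.asIdeal) →
  IsOpen (τ.ker : Set (GK L)) →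
  (∀ w : HeightOneSpectrum (𝓞 L), (N : 𝓞 L) ∉ w.asIdeal → (l : 𝓞 L) ∉ w.asIdeal → ∀ s, IsFrob w s →
    ∃ (z : ZBar) (m : ℕ), (τ s : QBar) = (z : QBar) ∧ r z = r (ψ w.asIdeal) ∧ 0 < m ∧ ¬ l ∣ m ∧
      z ^ m = 1) →
  Continuous (fun g => (Ψ g : PadicAlgCl ℓ)) →
  (∀ w : HeightOneSpectrum (𝓞 L), (N : 𝓞 L) ∉ w.asIdeal → (ℓ : 𝓞 L) ∉ w.asIdeal → ∀ s, IsFrob w s →
    (Ψ s : PadicAlgCl ℓ) = ι (ψ w.asIdeal : ZBar)) →
  ∃ η : H →* (PadicAlgCl ℓ)ˣ, Continuous (fun h => (η h : PadicAlgCl ℓ)) ∧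
    (∀ (s : GK L) (hs : ιL s ∈ H), (η ⟨ιL s, hs⟩ : PadicAlgCl ℓ) * ι (τ s : QBar) = Ψ s) ∧
    ∀ v : HeightOneSpectrum (𝓞 K), (N : 𝓞 K) ∉ v.asIdeal → (l : 𝓞 K) ∉ v.asIdeal →
      (ℓ : 𝓞 K) ∉ v.asIdeal → ∀ σ, IsFrob v σ → ∀ (y : GK K) (m : ℕ), 0 < m →
      ∀ h : y⁻¹ * σ ^ m * y ∈ H, ∃ z : ZBar, (η ⟨_, h⟩ : PadicAlgCl ℓ) = ι (z : QBar) ∧ r z = 1

/-- `ψ b (w) = ψ a (w')` whenever `w'` is the conjugate of `w` by `y` -/
def Conjp {K : Type} [Field K] [NumberField K] {L : Type} [Field L] [NumberField L] {n : ℕ}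
    (ι : GK L →* GK K) (ψ : Fin n → (Ideal (𝓞 L) →*₀ ZBar)) (y : GK K) (a b : Fin n) : Prop :=
  ∀ (w w' : HeightOneSpectrum (𝓞 L)) (s s' : GK L), IsFrob w s → IsFrob w' s' →
    ι s' = y⁻¹ * ι s * y → ψ b w.asIdeal = ψ a w'.asIdeal

/-- PART D4 (conjugate reductions).  From `S_FXJ`, `S_FXC`: to be proved `S_FXJ → S_FXC → S_CMP`.
Proof.  `Conjp` depends only on the coset `y U` (`U = ι.range`; conjugates of Frobenius elements in `GK L` are Frobenius
elements at the same place), so there are finitely many cases `(y U, a, b)`.  In a case where `Conjp` fails fix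
`w`, `w'`, `s`, `s'` with `ψ b w ≠ ψ a w'`; `w`, `w'` lie above the same place of `K` (`S_FXJ`, `S_FXC`), so they do not
contain `N` (otherwise both values are `0`).  Then `lam` is in the set only if the norm of `lam` is in `w` (finitely
many `lam`) or `r (ψ b w - ψ a w') = 0` (finitely many: a nonzero element of `ZBar` divides a nonzero integer;
compare `Pool.Agent.H500.HC.dvd_int`, `eq_zero_of_inf`). -/
def S_CMP : Prop := ∀ (K E : Type) [Field K] [NumberField K] [Field E] [NumberField E]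
  (j : E →+* QBar) (U : Subgroup (GK K)) (L : Type) [Field L] [NumberField L] [Algebra K L]
  (ι : GK L →* GK K) (e : AlgebraicClosure L ≃+* AlgebraicClosure K) (N n : ℕ)
  (ψ : Fin n → (Ideal (𝓞 L) →*₀ ZBar)), U.Normal → IsOpen (U : Set (GK K)) → FX U L ι e → 2 ≤ N →
  (∀ i (𝔞 : Ideal (𝓞 L)), 𝔞 ≠ ⊥ → (ψ i 𝔞 ≠ 0 ↔ IsCoprime 𝔞 (Ideal.span {(N : 𝓞 L)}))) →
  {lam : HeightOneSpectrum (𝓞 E) | ∃ (k : Type) (_ : Field k) (r : ZBar →+* k) (y : GK K)
    (a b : Fin n), RingHom.ker (r.comp (jz j)) = lam.asIdeal ∧ ¬ Conjp ι ψ y a b ∧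
    ∀ (w w' : HeightOneSpectrum (𝓞 L)) (s s' : GK L), (N : 𝓞 L) ∉ w.asIdeal →
      (N : 𝓞 L) ∉ w'.asIdeal → ((Ideal.absNorm lam.asIdeal : ℕ) : 𝓞 L) ∉ w.asIdeal →
      ((Ideal.absNorm lam.asIdeal : ℕ) : 𝓞 L) ∉ w'.asIdeal → IsFrob w s → IsFrob w' s' →
      ι s' = y⁻¹ * ι s * y → r (ψ b w.asIdeal) = r (ψ a w'.asIdeal)}.Finite

/-- PART D5 (matching of characters).  To be proved: `S_FLB → S_DIAG`.
Proof.  `r ∘ ψ i` is a ray class character modulo `N^e l` with values in `k` (roots of unity), `S_FLB` gives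
`Θ i : GK L → kˣ` (finite image) with `Θ i s = r(ψ i w)` for Frobenius elements at `w ∤ N l`.  By Chebotarev
`∑ δ i = ∑ Θ i` on `GK L` (both are invariant under translations by an open subgroup), so by the linear independence of
characters and `n! ≠ 0` in `k` each character occurs as often among the `δ` as among the `Θ`. -/
def S_DIAG : Prop := ∀ (L : Type) [Field L] [NumberField L] (N e l n : ℕ)
  (t : Fin n → (L →+* QBar) → ℕ) (ψ : Fin n → (Ideal (𝓞 L) →*₀ ZBar)) (k : Type) [Field k]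
  (r : ZBar →+* k) (δ : Fin n → (GK L →* kˣ)), 2 ≤ N → l.Prime → l.Coprime N → (l : k) = 0 →
  ((n.factorial : ℕ) : k) ≠ 0 → (∀ i, IsHecke (N ^ e) N (t i) (ψ i)) →
  (∀ i, IsOpen ((δ i).ker : Set (GK L))) →
  (∀ w : HeightOneSpectrum (𝓞 L), (N : 𝓞 L) ∉ w.asIdeal → (l : 𝓞 L) ∉ w.asIdeal → ∀ s, IsFrob w s →
    ∏ i, (X - Polynomial.C (δ i s : k)) = ∏ i, (X - Polynomial.C (r (ψ i w.asIdeal)))) →
  ∃ π : Fin n ≃ Fin n, ∀ i, ∀ w : HeightOneSpectrum (𝓞 L), (N : 𝓞 L) ∉ w.asIdeal →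
    (l : 𝓞 L) ∉ w.asIdeal → ∀ s, IsFrob w s → (δ i s : k) = r (ψ (π i) w.asIdeal)

/-! ## Part E: representations -/

/-- PART E1 (lifting to characteristic zero, finite groups of order prime to the characteristic).
Proof.  `l` = char `k` (if it is `0` everything is easy: `r` is injective).  Let `χ_1, …, χ_c` be the irreducible characters of
`G` over `ℚ̄` (values in `ZBar`), `c` = number of conjugacy classes.  The elements
`e_χ = (χ(1) / |G|) ∑ r(χ(g⁻¹)) g ∈ k[G]` are orthogonal central idempotents with sum `1` (reduce the identities of the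
characters modulo `ker r`; `|G| ≠ 0` in `k`), so `k[G] = ∏ e_χ k[G]`.  `k[G]` is semisimple (Maschke) with centre of
dimension `c`, and each `e_χ ≠ 0` (its coefficient at `1` is `χ(1)²/|G|`, `χ(1) ∣ |G|`), so each `e_χ k[G]` has centre `k` and is a
matrix algebra over `k`: there is one simple module `S_χ` for each `χ`, and the regular representation gives
`dim S_χ = χ(1)`; the trace of `g` on `S_χ` is `r(χ(g))` (the function `g ↦ tr(g | e_χ k[G]) = χ(1) tr(g | S_χ)`, and it is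
`χ(1) r(χ(g))` by the trace formula for `e_χ`).  `ρ = ⊕ S_χ^{m_χ}`: take `⊕ χ^{m_χ}`.  (Or any other proof, e.g. lifting
homomorphisms step by step along nilpotent ideals in Witt vectors or in the localization of `ZBar`, `H²(G, M_n(k)) = 0`;
check first whether the library has it: `zcat libmod.tsv.gz | grep -i lift`, Brauer characters `R389`.) -/
def S_LIFT : Prop := ∀ (G : Type) [Group G] [Finite G] (n : ℕ) (k : Type) [Field k] [IsAlgClosed k]
  (r : ZBar →+* k) (ρ : G →* GL (Fin n) k), ((Nat.card G : ℕ) : k) ≠ 0 →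
  ∃ ρ' : G →* GL (Fin n) QBar, ∀ g, ∃ z : ZBar,
    (ρ' g : Matrix (Fin n) (Fin n) QBar).trace = (z : QBar) ∧
    r z = (ρ g : Matrix (Fin n) (Fin n) k).trace

/-- PART E2 (lifting with diagonal matrices).  To be proved: `S_LIFT → S_LIFD`.
Proof.  Apply `S_LIFT` to the image.  `ρ'(U)` is a finite abelian group (`ρ` is injective on the image and diagonal on
`U`), so after conjugation `ρ'` is diagonal on `U` with entries `τ i` (roots of unity, in `ZBar`).  The traces show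
`∑ r ∘ τ i = ∑ ρ_ii` on `U`, so by the linear independence of characters (`n! ≠ 0` in `k`) they agree up to a
permutation; conjugate by a permutation matrix. -/
def S_LIFD : Prop := ∀ (G : Type) [Group G] (U : Subgroup G) (n : ℕ) (k : Type) [Field k]
  [IsAlgClosed k] (r : ZBar →+* k) (ρ : G →* GL (Fin n) k), Finite ρ.range →
  ((Nat.card ρ.range : ℕ) : k) ≠ 0 → ((n.factorial : ℕ) : k) ≠ 0 →
  (∀ u ∈ U, (ρ u : Matrix (Fin n) (Fin n) k).IsDiag) →
  ∃ ρ' : G →* GL (Fin n) QBar, ρ.ker ≤ ρ'.ker ∧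
    (∀ g, ∃ z : ZBar, (ρ' g : Matrix (Fin n) (Fin n) QBar).trace = (z : QBar) ∧
      r z = (ρ g : Matrix (Fin n) (Fin n) k).trace) ∧
    ∀ u ∈ U, (ρ' u : Matrix (Fin n) (Fin n) QBar).IsDiag ∧ ∀ i, ∃ (z : ZBar) (m : ℕ),
      (ρ' u : Matrix (Fin n) (Fin n) QBar) i i = (z : QBar) ∧
      r z = (ρ u : Matrix (Fin n) (Fin n) k) i i ∧ 0 < m ∧ (m : k) ≠ 0 ∧ z ^ m = 1

/-- PART E3 (twisting the isotypic parts).
Proof.  `i ∼ j` if the `i`-th and `j`-th entries of `ρ' u` agree for all `u ∈ U`.  `ρ'(g)` maps the weight space of the class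
`x` to that of the class `g x` (`U` normal): `G` acts on the classes, `Hs i` is the stabilizer of the class of `i`.  Choose a
representative `i0` in each orbit, and for each class `x` in the orbit an element `y_x` with `y_x [i0] = x`.  For a class `x`
and `g ∈ G` let `D_x(g) = η_{i0}(y_{g x}⁻¹ g y_x)`: `D_x(g h) = D_{h x}(g) D_x(h)`.  `R(g)_{ij} = ι(ρ'(g)_{ij}) D_{[j]}(g)`: a
representation.  On `U`: `D_x(u) ι(ρ'(u)_jj) = η_{i0}(y_x⁻¹ u y_x) ι(ρ'(y_x⁻¹ u y_x)_{i0 i0}) = Ψ i0 (y_x⁻¹ u y_x) = Ψ j u` for `j` in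
the class `x`.  Continuity: `ρ'` is locally constant, `D_x(g u) = D_x(g) η_{i0}(y_x⁻¹ u y_x)` for `u ∈ U`.  Trace:
`∑_{x : g x = x} D_x(g) ι(t_x)`, `t_x = ∑_{j ∈ x} ρ'(g)_jj` (`= 0` if `g x ≠ x`), which is in `ZBar` (the trace of an element of
finite order on the weight space, `ρ'.range` finite), `D_x(g) = η_{i0}(y_x⁻¹ g y_x) = ι(z)`, `r z = 1`. -/
def S_RTW : Prop := ∀ (G : Type) [Group G] [TopologicalSpace G] [IsTopologicalGroup G]
  (U : Subgroup G) (n : ℕ) (ρ' : G →* GL (Fin n) QBar) (k : Type) [Field k] (r : ZBar →+* k)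
  (C : Type) [NormedField C] (ι : QBar →+* C) (Ψ : Fin n → G → C) (Hs : Fin n → Subgroup G)
  (η : ∀ i, Hs i →* Cˣ), U.Normal → IsOpen (U : Set G) → IsOpen (ρ'.ker : Set G) →
  Finite ρ'.range → (∀ u ∈ U, (ρ' u : Matrix (Fin n) (Fin n) QBar).IsDiag) →
  (∀ i g, g ∈ Hs i ↔ ∀ u ∈ U, (ρ' (g⁻¹ * u * g) : Matrix (Fin n) (Fin n) QBar) i i =
    (ρ' u : Matrix (Fin n) (Fin n) QBar) i i) →
  (∀ i, Continuous (fun h => (η i h : C))) →
  (∀ i, ∀ u ∈ U, ∀ h : u ∈ Hs i,
    (η i ⟨u, h⟩ : C) * ι ((ρ' u : Matrix (Fin n) (Fin n) QBar) i i) = Ψ i u) →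
  (∀ i j (y : G), (∀ u ∈ U, (ρ' (y⁻¹ * u * y) : Matrix (Fin n) (Fin n) QBar) i i =
    (ρ' u : Matrix (Fin n) (Fin n) QBar) j j) → ∀ u ∈ U, Ψ i (y⁻¹ * u * y) = Ψ j u) →
  ∃ R : G →* GL (Fin n) C, Continuous (fun g => (R g : Matrix (Fin n) (Fin n) C)) ∧
    (∀ u ∈ U, (R u : Matrix (Fin n) (Fin n) C) = Matrix.diagonal fun i => Ψ i u) ∧
    ∀ g, (∀ (i : Fin n) (y : G) (h : y⁻¹ * g * y ∈ Hs i), ∃ z : ZBar,
        (η i ⟨_, h⟩ : C) = ι (z : QBar) ∧ r z = 1) →
      ∀ z0 : ZBar, (ρ' g : Matrix (Fin n) (Fin n) QBar).trace = (z0 : QBar) →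
      ∃ z : ZBar, (R g : Matrix (Fin n) (Fin n) C).trace = ι (z : QBar) ∧ r z = r z0

/-- PART E4 (finitely many traces).
Proof.  `R(g)^d ∈ R(U)`, `d = [G : U]` (`U` normal), so the eigenvalues of `R(g)` are `d`-th roots of the `Ψ i (g^d)`: for each
`g` there are finitely many possibilities for the trace of `R(g)`.  If some `R` exists the `Ψ i` are homomorphisms
on `U`; let `x` run through the classes of equal `Ψ i`; there are `u_1, …, u_m ∈ U` (`m` = number of classes) with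
`det (Ψ_x(u_b)) ≠ 0` (linear independence of characters).  For a coset `g U` and `u ∈ U`:
`tr R(g u) = ∑_x a_x Ψ_x(u)`, `a_x = ∑_{i ∈ x} R(g)_ii`, and the `a_x` are determined by the `tr R(g u_b)`: finitely many
possibilities for each of the finitely many cosets. -/
def S_FIN : Prop := ∀ (G : Type) [Group G] (U : Subgroup G) (n : ℕ) (C : Type) [Field C]
  [IsAlgClosed C] (Ψ : Fin n → G → C), U.Normal → U.FiniteIndex →
  {T : G → C | ∃ R : G →* GL (Fin n) C,
    (∀ u ∈ U, (R u : Matrix (Fin n) (Fin n) C) = Matrix.diagonal fun i => Ψ i u) ∧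
    T = fun g => (R g : Matrix (Fin n) (Fin n) C).trace}.Finite

/-- PART E5 (semisimplicity).
Proof.  `R` is diagonal on the subgroup `U` of finite index: every subspace stable under `U` has a `U`-stable
complement; average the projection over the cosets (characteristic zero). -/
def S_SEM : Prop := ∀ (G : Type) [Group G] (U : Subgroup G) (n : ℕ) (C : Type) [Field C]
  [CharZero C] (R : G →* GL (Fin n) C), U.FiniteIndex →
  (∀ u ∈ U, (R u : Matrix (Fin n) (Fin n) C).IsDiag) → Pool.Agent.H500.ZO.SemiS R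

end Pool.Agent.H500.ED
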