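import Pool.Agent.H500.ZO.All
import Pool.Agent.H345.ED.CNDA
import Pool.Agent.H385.ED.CNDB
import Pool.Agent.H720.ED.CND
import Pool.Agent.H618.ED.FLB
import Pool.Agent.H591.ED.VAL
import Pool.Agent.H399.ED.AVA
import Pool.Agent.H721.ED.FXE
import Pool.Agent.H190.ED.FXF
import Pool.Agent.H199.ED.FXC
import Pool.Agent.H401.ED.TOW
import Pool.Agent.H181.ED.FXJ
import Pool.Agent.H600.ED.ROOT
import Pool.Agent.H218.ED.ETA
import Pool.Agent.H539.ED.CMP
import Pool.Agent.H903.ED.DIAG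
import Pool.Agent.H955.ED.LIFT
import Pool.Agent.H322.ED.LIFD
import Pool.Agent.H441.ED.RTW
import Pool.Agent.H225.ED.FIN
import Pool.Agent.H996.ED.SEM
import Pool.Agent.H500.ED.Main3

set_option autoImplicit false
set_option linter.unusedSectionVars false

/-!
# Existence of `ℓ-adic` representations: the parts
-/

namespace Pool.Agent.H500.ED

theorem all_CNDA : S_CNDA := Pool.Agent.H345.ED.CNDA.main
theorem all_CNDB : S_CNDB := Pool.Agent.H385.ED.CNDB.main
theorem all_CND : S_CND := Pool.Agent.H720.ED.CND.main all_CNDA all_CNDB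
theorem all_FLB : S_FLB := Pool.Agent.H618.ED.FLB.main all_CND
theorem all_VAL : S_VAL := Pool.Agent.H591.ED.VAL.main
theorem all_AVA : S_AVA := Pool.Agent.H399.ED.AVA.main all_FLB all_VAL
theorem all_FXE : S_FXE := Pool.Agent.H721.ED.FXE.main
theorem all_FXF : S_FXF := Pool.Agent.H190.ED.FXF.main
theorem all_FXC : S_FXC := Pool.Agent.H199.ED.FXC.main
theorem all_TOW : S_TOW := Pool.Agent.H401.ED.TOW.main
theorem all_FXJ : S_FXJ := Pool.Agent.H181.ED.FXJ.main
theorem all_ROOT : S_ROOT := Pool.Agent.H600.ED.ROOT.main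
theorem all_CMP : S_CMP := Pool.Agent.H539.ED.CMP.main all_FXJ all_FXC
theorem all_DIAG : S_DIAG := Pool.Agent.H903.ED.DIAG.main all_FLB
theorem all_LIFT : S_LIFT := Pool.Agent.H955.ED.LIFT.main
theorem all_LIFD : S_LIFD := Pool.Agent.H322.ED.LIFD.main all_LIFT
theorem all_RTW : S_RTW := Pool.Agent.H441.ED.RTW.main
theorem all_FIN : S_FIN := Pool.Agent.H225.ED.FIN.main
theorem all_SEM : S_SEM := Pool.Agent.H996.ED.SEM.main

end Pool.Agent.H500.ED
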