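import Pool.Agent.H500.ED.Main3
import Pool.Agent.H500.ED.Ext
import Pool.Agent.H500.ED.Dg
import Pool.Agent.H500.ZO.All

set_option autoImplicit false
set_option linter.unusedSectionVars false

/-!
# The existence theorem over `ℚ`
-/

namespace Pool.Agent.H500.ED

open NumberField IsDedekindDomain Filter Topology Polynomial
open Pool.Agent.W401.Cheb (GK IsFrob IsInert dens)
open Pool.Agent.H500.HC (InRay QBar ZBar jz natCast_mem_iff_dvd)
open Pool.Agent.H500.MW (PosUD Diag)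
open Pool.Agent.H500.TH (SolRes)
open Pool.Agent.H500.ZO (PotHecke SemiS)
open Pool.Agent.Y800 (GQ Unramified IsGeomFrob InInertia Corresponds IsSemisimple)
open Pool.Agent.H328.ZO.SYS (dual coe_dual charpoly_dual dual_inj semi_dual)

/-- the main theorem of project ED -/
def EDM : Prop := ∀ (K E : Type) [Field K] [NumberField K] [Field E] [NumberField E]
  (j : E →+* QBar) (N n : ℕ), 2 ≤ N → ∀ P : HeightOneSpectrum (𝓞 K) → (𝓞 E)[X],
  PosUD (SolRes N n P) →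
    ∃ (U : Subgroup (GK K)) (L : Type) (_ : Field L) (_ : NumberField L) (_ : Algebra K L)
      (ι : GK L →* GK K) (e : ℕ) (t : Fin n → (L →+* QBar) → ℕ)
      (ψ : Fin n → (Ideal (𝓞 L) →*₀ ZBar)), PotHecke j N n P U L ι e t ψ ∧
      ∀ (ℓ : ℕ) [Fact ℓ.Prime] (κ : QBar →+* PadicAlgCl ℓ),
      ∃ R : GK K →* GL (Fin n) (PadicAlgCl ℓ),
        Continuous (fun g => (R g : Matrix (Fin n) (Fin n) (PadicAlgCl ℓ))) ∧ SemiS R ∧
        (∀ s : GK L, (R (ι s) : Matrix (Fin n) (Fin n) (PadicAlgCl ℓ)).IsDiag) ∧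
        ∀ v : HeightOneSpectrum (𝓞 K), (N : 𝓞 K) ∉ v.asIdeal → (ℓ : 𝓞 K) ∉ v.asIdeal →
          (∀ τ, IsInert v τ → R τ = 1) ∧ ∀ σ, IsFrob v σ →
          (R σ : Matrix (Fin n) (Fin n) (PadicAlgCl ℓ)).charpoly =
            (P v).map ((κ.comp j).comp (algebraMap (𝓞 E) E))

/-! ## the places of `ℚ` -/

theorem norm_eq {v : HeightOneSpectrum (𝓞 ℚ)} {p : ℕ} (hp : p.Prime) (h : (p : 𝓞 ℚ) ∈ v.asIdeal) :
    Ideal.absNorm v.asIdeal = p := by
  have h1 : Ideal.absNorm v.asIdeal ∣ Ideal.absNorm (Ideal.span {(p : 𝓞 ℚ)}) :=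
    Ideal.absNorm_dvd_absNorm_of_le ((Ideal.span_singleton_le_iff_mem _).2 h)
  rw [Ideal.absNorm_span_natCast, RingOfIntegers.rank, Module.finrank_self, pow_one] at h1
  rcases (Nat.dvd_prime hp).1 h1 with h2 | h2
  · exact absurd (Ideal.absNorm_eq_one_iff.1 h2) v.isPrime.ne_top
  · exact h2

theorem norm_spec (v : HeightOneSpectrum (𝓞 ℚ)) : (Ideal.absNorm v.asIdeal).Prime ∧
    ((Ideal.absNorm v.asIdeal : ℕ) : 𝓞 ℚ) ∈ v.asIdeal := by
  obtain ⟨p, hp, hpv⟩ := Pool.Agent.Y800.HM.exists_prime_mem ℚ v.asIdeal v.isMaximal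
  rw [norm_eq hp hpv]
  exact ⟨hp, hpv⟩

theorem mem_iff (v : HeightOneSpectrum (𝓞 ℚ)) (m : ℕ) :
    (m : 𝓞 ℚ) ∈ v.asIdeal ↔ Ideal.absNorm v.asIdeal ∣ m :=
  natCast_mem_iff_dvd (norm_spec v).1 (norm_spec v).2

/-- the place below a maximal ideal of the algebraic integers -/
theorem below {p : ℕ} (hp : p.Prime) (Q : Ideal ZBar) (hQ : Q.IsMaximal) (hpQ : (p : ZBar) ∈ Q) :
    ∃ v : HeightOneSpectrum (𝓞 ℚ), Q.comap (algebraMap (𝓞 ℚ) ZBar) = v.asIdeal ∧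
      Ideal.absNorm v.asIdeal = p := by
  have hQp : Q.IsPrime := hQ.isPrime
  have h1 : (p : 𝓞 ℚ) ∈ Q.comap (algebraMap (𝓞 ℚ) ZBar) := by
    rw [Ideal.mem_comap, map_natCast]
    exact hpQ
  have h2 : Q.comap (algebraMap (𝓞 ℚ) ZBar) ≠ ⊥ := by
    intro h
    rw [h, Ideal.mem_bot] at h1
    exact hp.ne_zero (by exact_mod_cast h1)
  exact ⟨⟨Q.comap (algebraMap (𝓞 ℚ) ZBar), Ideal.comap_isPrime _ Q, h2⟩, rfl, norm_eq hp h1⟩

/-- arithmetic and geometric Frobenius elements -/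
theorem frob_of_geom {p : ℕ} {Q : Ideal ZBar} (hQ : Q.IsMaximal) {σ : GQ}
    (hσ : IsGeomFrob p Q σ) {v : HeightOneSpectrum (𝓞 ℚ)}
    (hv : Q.comap (algebraMap (𝓞 ℚ) ZBar) = v.asIdeal) (hvp : Ideal.absNorm v.asIdeal = p) :
    IsFrob v σ⁻¹ := by
  refine ⟨Q, hQ, hv, fun x => ?_⟩
  have h1 := hσ (σ⁻¹ • x)
  rw [smul_inv_smul] at h1
  rw [hvp]
  exact h1

theorem geom_of_frob {v : HeightOneSpectrum (𝓞 ℚ)} {σ : GQ} (h : IsFrob v σ) :
    ∃ Q : Ideal ZBar, Q.IsMaximal ∧ ((Ideal.absNorm v.asIdeal : ℕ) : ZBar) ∈ Q ∧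
      IsGeomFrob (Ideal.absNorm v.asIdeal) Q σ⁻¹ := by
  obtain ⟨Q, hQ, hv, hσ⟩ := h
  refine ⟨Q, hQ, ?_, fun x => ?_⟩
  · have h1 := hv.symm.le (norm_spec v).2
    rw [Ideal.mem_comap, map_natCast] at h1
    exact h1
  · have h1 := hσ (σ⁻¹ • x)
    rw [smul_inv_smul] at h1
    exact h1

theorem inert_mem {v : HeightOneSpectrum (𝓞 ℚ)} {τ : GQ} (h : IsInert v τ) :
    ∃ Q : Ideal ZBar, Q.IsMaximal ∧ ((Ideal.absNorm v.asIdeal : ℕ) : ZBar) ∈ Q ∧
      InInertia Q τ := by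
  obtain ⟨Q, hQ, hv, hτ⟩ := h
  refine ⟨Q, hQ, ?_, hτ⟩
  have h1 := hv.symm.le (norm_spec v).2
  rw [Ideal.mem_comap, map_natCast] at h1
  exact h1

section

variable {E : Type} [Field E] [NumberField E]

/-- a residual representation with solvable image at `v`, with the polynomials `P p` for the primes `p`
which do not divide `N`, geometric Frobenius elements -/
def SRes (N n : ℕ) (P : ℕ → (𝓞 E)[X]) (v : HeightOneSpectrum (𝓞 E)) : Prop :=
  ∃ (k : Type) (_ : Field k) (φ : 𝓞 E →+* k) (ρ : GQ →* GL (Fin n) k),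
    RingHom.ker φ = v.asIdeal ∧ IsOpen (ρ.ker : Set GQ) ∧ Group.IsSolvable ρ.range ∧
    ∀ p : ℕ, p.Prime → ¬ p ∣ N → (p : 𝓞 E) ∉ v.asIdeal → Unramified ρ p ∧
      ∀ Q : Ideal ZBar, Q.IsMaximal → (p : ZBar) ∈ Q → ∀ σ : GQ, IsGeomFrob p Q σ →
        (ρ σ : Matrix (Fin n) (Fin n) k).charpoly = (P p).map φ

theorem SRes.mono {N N' n : ℕ} (hN : N ∣ N') {P : ℕ → (𝓞 E)[X]} {v : HeightOneSpectrum (𝓞 E)}
    (h : SRes N n P v) : SRes N' n P v := by
  obtain ⟨k, _, φ, ρ, h1, h2, h3, h4⟩ := h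
  exact ⟨k, inferInstance, φ, ρ, h1, h2, h3, fun p hp hpN =>
    h4 p hp fun h => hpN (h.trans hN)⟩

/-- the polynomials as a function of the places of `ℚ` -/
noncomputable def PQ (P : ℕ → (𝓞 E)[X]) (v : HeightOneSpectrum (𝓞 ℚ)) : (𝓞 E)[X] :=
  P (Ideal.absNorm v.asIdeal)

theorem SRes.solRes {N n : ℕ} {P : ℕ → (𝓞 E)[X]} {lam : HeightOneSpectrum (𝓞 E)}
    (h : SRes N n P lam) : SolRes (K := ℚ) N n (PQ P) lam := by
  obtain ⟨k, _, φ, ρ, h1, h2, h3, h4⟩ := h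
  have hdual : ∀ g : GQ, dual (ρ g) = 1 ↔ ρ g = 1 := by
    intro g
    constructor
    · intro h
      exact dual_inj (h.trans (map_one dual).symm)
    · intro h
      rw [h, map_one]
  have hlam : ∀ v : HeightOneSpectrum (𝓞 ℚ),
      ((Ideal.absNorm lam.asIdeal : ℕ) : 𝓞 ℚ) ∉ v.asIdeal →
      ((Ideal.absNorm v.asIdeal : ℕ) : 𝓞 E) ∉ lam.asIdeal := by
    intro v hv h
    obtain ⟨l, hl, hlm⟩ := Pool.Agent.Y800.HM.exists_prime_mem E lam.asIdeal lam.isMaximal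
    have h5 : l ∣ Ideal.absNorm v.asIdeal := (natCast_mem_iff_dvd hl hlm).1 h
    have h6 : l = Ideal.absNorm v.asIdeal :=
      (Nat.prime_dvd_prime_iff_eq hl (norm_spec v).1).1 h5
    have h7 : l ∣ Ideal.absNorm lam.asIdeal := by
      have h8 : ((Ideal.absNorm lam.asIdeal : ℕ) : 𝓞 E) ∈ lam.asIdeal := Ideal.absNorm_mem _
      exact (natCast_mem_iff_dvd hl hlm).1 h8
    exact hv ((mem_iff v _).2 (h6 ▸ h7))
  refine ⟨k, inferInstance, φ, dual.comp ρ, h1, ?_, ?_, ?_, ?_⟩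
  · have h5 : ((dual.comp ρ).ker : Set (GK ℚ)) = (ρ.ker : Set GQ) := by
      ext g
      exact hdual g
    rw [h5]
    exact h2
  · intro v hv τ hτ
    rw [Nat.cast_mul] at hv
    have hv1 : (N : 𝓞 ℚ) ∉ v.asIdeal := fun h => hv (v.asIdeal.mul_mem_right _ h)
    have hv2 : ((Ideal.absNorm lam.asIdeal : ℕ) : 𝓞 ℚ) ∉ v.asIdeal :=
      fun h => hv (v.asIdeal.mul_mem_left _ h)
    obtain ⟨Q, hQ, hpQ, hτQ⟩ := inert_mem hτ
    have h5 := (h4 _ (norm_spec v).1 (fun h => hv1 ((mem_iff v N).2 h)) (hlam v hv2)).1 Q hQ hpQ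
      τ hτQ
    exact (hdual τ).2 h5
  · intro v hv1 hv2 σ hσ
    obtain ⟨Q, hQ, hpQ, hσQ⟩ := geom_of_frob hσ
    have h5 := (h4 _ (norm_spec v).1 (fun h => hv1 ((mem_iff v N).2 h)) (hlam v hv2)).2 Q hQ hpQ
      σ⁻¹ hσQ
    show (dual (ρ σ) : Matrix (Fin n) (Fin n) k).charpoly = _
    rw [charpoly_dual, ← map_inv, h5]
    rfl
  · exact Pool.Agent.H500.TH.sol_of_ker ρ (dual.comp ρ) (fun g hg => (hdual g).2 hg) h3

/-! ## gluing -/

/-- representations with the same traces at the Frobenius elements have the same traces -/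
theorem trace_eq {K : Type} [Field K] [NumberField K] {C : Type} [NormedField C] {n : ℕ}
    (R R' : GK K →* GL (Fin n) C)
    (hR : Continuous (fun g => (R g : Matrix (Fin n) (Fin n) C)))
    (hR' : Continuous (fun g => (R' g : Matrix (Fin n) (Fin n) C))) {M : ℕ} (hM : 0 < M)
    (h : ∀ v : HeightOneSpectrum (𝓞 K), (M : 𝓞 K) ∉ v.asIdeal → ∀ σ, IsFrob v σ →
      (R σ : Matrix (Fin n) (Fin n) C).trace = (R' σ : Matrix (Fin n) (Fin n) C).trace)
    (g : GK K) : (R g : Matrix (Fin n) (Fin n) C).trace =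
      (R' g : Matrix (Fin n) (Fin n) C).trace := by
  by_contra hne
  set f : GK K → C := fun g => (R g : Matrix (Fin n) (Fin n) C).trace -
    (R' g : Matrix (Fin n) (Fin n) C).trace with hf
  have hfc : Continuous f := hR.matrix_trace.sub hR'.matrix_trace
  have h0 : 0 < ‖f g‖ := norm_pos_iff.2 (sub_ne_zero.2 hne)
  obtain ⟨V, hVn, hVo, hV⟩ := Pool.Agent.H139.ZO.ABL.nhd f hfc g h0
  obtain ⟨v, σ, -, hMv, hσ, hσV⟩ := Pool.Agent.H139.ZO.frob_ex V hVn hVo g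
    (B := ∅) Set.finite_empty hM
  have h1 := hV _ hσV
  rw [mul_inv_cancel_left] at h1
  have h2 : f σ = 0 := sub_eq_zero.2 (h v hMv σ hσ)
  rw [h2, zero_sub, norm_neg] at h1
  exact lt_irrefl _ h1

theorem charpoly_eq {G : Type} [Group G] {C : Type} [Field C] [CharZero C] {n : ℕ}
    (R R' : G →* GL (Fin n) C)
    (h : ∀ g, (R g : Matrix (Fin n) (Fin n) C).trace = (R' g : Matrix (Fin n) (Fin n) C).trace)
    (g : G) : (R g : Matrix (Fin n) (Fin n) C).charpoly =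
      (R' g : Matrix (Fin n) (Fin n) C).charpoly := by
  refine Pool.Agent.TH658.Eq.charpoly_eq_of_traces _ _ fun k => ?_
  have h1 := h (g ^ k)
  rw [map_pow, map_pow, Units.val_pow_eq_pow_val, Units.val_pow_eq_pow_val] at h1
  exact h1

theorem one_of_trace {G : Type} [Group G] {C : Type} [Field C] [CharZero C] {n : ℕ}
    (R R' : G →* GL (Fin n) C) (hss : SemiS R)
    (h : ∀ g, (R g : Matrix (Fin n) (Fin n) C).trace = (R' g : Matrix (Fin n) (Fin n) C).trace)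
    {τ : G} (hτ : R' τ = 1) : R τ = 1 := by
  refine Pool.Agent.H500.ZO.all_RAD G C n R ⊤ inferInstance hss τ (Subgroup.mem_top τ) ?_
  intro g _
  rw [h, map_mul, hτ, mul_one, ← h]

end

end Pool.Agent.H500.ED
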